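import Mathlib
import Pool.Agent.Helper9.NS
import Pool.Agent.Helper51.VK.Defs
import Pool.Agent.Helper83.EW.Red

/-!
# Adapted coordinates exist
-/

set_option linter.unusedSectionVars false

namespace Pool.Agent.Helper83.KV

open VC VF Function Pool.Agent.Helper51.EW
open Pool.Agent.Helper83.EW

universe u

variable {k : Type u} [Field k] [IsAlgClosed k] [CharZero k]

/-- A nonzero polynomial is a product of two of bounded degrees. -/
lemma exists_split (b : ℕ) : ∀ (a : ℕ) (f : Polynomial k), f ≠ 0 → f.natDegree ≤ a + b →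
    ∃ P Q : Polynomial k, f = P * Q ∧ P ≠ 0 ∧ Q ≠ 0 ∧ P.natDegree ≤ a ∧ Q.natDegree ≤ b := by
  intro a
  induction a with
  | zero =>
    intro f hf hd
    exact ⟨1, f, (one_mul f).symm, one_ne_zero, hf, by simp, by simpa using hd⟩
  | succ a ih =>
    intro f hf hd
    by_cases hb : f.natDegree ≤ b
    · exact ⟨1, f, (one_mul f).symm, one_ne_zero, hf, by simp, hb⟩
    · obtain ⟨r, hr⟩ := IsAlgClosed.exists_root f (by
        intro h0
        have := Polynomial.natDegree_eq_zero_iff_degree_le_zero.mpr h0.le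
        omega)
      obtain ⟨g, hg⟩ := Polynomial.dvd_iff_isRoot.mpr hr
      have hg0 : g ≠ 0 := by
        rintro rfl
        rw [mul_zero] at hg
        exact hf hg
      have hdeg : f.natDegree = g.natDegree + 1 := by
        rw [hg, Polynomial.natDegree_mul (Polynomial.X_sub_C_ne_zero r) hg0,
          Polynomial.natDegree_X_sub_C]
        omega
      obtain ⟨P, Q, h1, h2, h3, h4, h5⟩ := ih g hg0 (by omega)
      refine ⟨(Polynomial.X - Polynomial.C r) * P, Q, by rw [hg, h1, mul_assoc],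
        mul_ne_zero (Polynomial.X_sub_C_ne_zero r) h2, h3, ?_, h5⟩
      refine Polynomial.natDegree_mul_le.trans ?_
      rw [Polynomial.natDegree_X_sub_C]
      omega

theorem exists_core (W : Wei k) (hN : W.N = 2) (hΔ : 4 * W.A ^ 3 + 27 * W.B ^ 2 ≠ 0) :
    Nonempty (Helper51.VK.Core W) := by
  have hA := W.hA
  have hB := W.hB
  rw [hN] at hA hB
  have hΔh : (4 * W.A ^ 3 + 27 * W.B ^ 2).IsHomogeneous 24 := by
    have h4 : (4 : MvPolynomial (Fin 2) k) = MvPolynomial.C 4 := (map_ofNat MvPolynomial.C 4).symm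
    have h27 : (27 : MvPolynomial (Fin 2) k) = MvPolynomial.C 27 :=
      (map_ofNat MvPolynomial.C 27).symm
    rw [h4, h27]
    have e1 := (MvPolynomial.isHomogeneous_C (Fin 2) (4 : k)).mul (hA.pow 3)
    have e2 := (MvPolynomial.isHomogeneous_C (Fin 2) (27 : k)).mul (hB.pow 2)
    exact e1.add e2
  obtain ⟨r, hr, hr0⟩ := exists_zero (by norm_num) hΔh
  obtain ⟨E, hE⟩ := exists_bas hr
  obtain ⟨f, hf⟩ : ∃ f, f = deh E (4 * W.A ^ 3 + 27 * W.B ^ 2) := ⟨_, rfl⟩
  have hf0 : f ≠ 0 := by rw [hf]; exact deh_ne_zero E hΔh hΔ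
  have hfd : f.natDegree < 24 := by
    rw [hf]
    exact natDegree_deh_lt E hΔh (by norm_num) (by rw [hE]; exact hr0)
  have hc : (1 / 108 : k) ≠ 0 := by norm_num
  obtain ⟨P, Q, h1, h2, h3, h4, h5⟩ := exists_split 12 12 (Polynomial.C (1 / 108) * f)
    (mul_ne_zero (Polynomial.C_ne_zero.mpr hc) hf0) (by
      rw [Polynomial.natDegree_C_mul hc]
      omega)
  have e3 : (3 : Polynomial k) = Polynomial.C 3 := (map_ofNat Polynomial.C 3).symm
  refine ⟨{ e0 := E.e0, e1 := E.e1, det := ?_, al := Polynomial.C (-1 / 3) * deh E W.A,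
            be := Polynomial.C (1 / 2) * deh E W.B, P := P, Q := Q, hA := ?_, hB := ?_,
            hPQ := ?_, hP0 := h2, hQ0 := h3, dal := ?_, dbe := ?_, dP := h4, dQ := h5,
            sing := ?_ }⟩
  · rw [E.det]
    exact one_ne_zero
  · intro K _ _ T
    rw [map_mul, Polynomial.aeval_C, aeval_deh]
    have : (-3 : K) * algebraMap k K (-1 / 3) = 1 := by
      have h6 : (-3 : K) = algebraMap k K (-3) := by rw [map_neg, map_ofNat]
      rw [h6, ← map_mul]
      norm_num
    rw [← mul_assoc, this, one_mul]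
  · intro K _ _ T
    rw [map_mul, Polynomial.aeval_C, aeval_deh]
    have : (2 : K) * algebraMap k K (1 / 2) = 1 := by
      have h6 : (2 : K) = algebraMap k K 2 := by rw [map_ofNat]
      rw [h6, ← map_mul]
      norm_num
    rw [← mul_assoc, this, one_mul]
  · rw [← h1, hf]
    have e1 : deh E (4 * W.A ^ 3 + 27 * W.B ^ 2) = 4 * deh E W.A ^ 3 + 27 * deh E W.B ^ 2 := by
      unfold deh
      simp only [map_add, map_mul, map_pow, map_ofNat]
    rw [e1]
    have e4 : (4 : Polynomial k) = Polynomial.C 4 := (map_ofNat Polynomial.C 4).symm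
    have e27 : (27 : Polynomial k) = Polynomial.C 27 := (map_ofNat Polynomial.C 27).symm
    rw [e4, e27, mul_pow, mul_pow, ← Polynomial.C_pow, ← Polynomial.C_pow, mul_add, ← mul_assoc,
      ← mul_assoc, ← Polynomial.C_mul, ← Polynomial.C_mul]
    have e5 : (1 / 2 : k) ^ 2 = 1 / 108 * 27 := by norm_num
    have e6 : (-1 / 3 : k) ^ 3 = -(1 / 108 * 4) := by norm_num
    rw [e5, e6, Polynomial.C_neg]
    ring
  · exact (Polynomial.natDegree_C_mul_le _ _).trans (natDegree_deh_le E hA)
  · exact (Polynomial.natDegree_C_mul_le _ _).trans (natDegree_deh_le E hB)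
  · rw [hE]
    have := hr0
    rw [map_add, map_mul, map_mul, map_pow, map_pow, map_ofNat, map_ofNat] at this
    exact this

end Pool.Agent.Helper83.KV
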