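import Mathlib
import Pool.Agent.Helper9.NS
import Pool.Agent.Helper71.SE.Zero

/-!
# The contact count

Twelve parameters, eleven equations.
-/

set_option linter.unusedSectionVars false

namespace Pool.Agent.Helper83.KV

open Polynomial

universe u

section nrm

variable {k : Type*} [Field k]

/-- `F(λ) F(μ)` as a function of `S = λ + μ` and `P = λ μ`. -/
noncomputable def nrm {A : Type*} [CommRing A] [Algebra k A] (F : k[X]) (S P : A) : A :=
  algebraMap k A (F.leadingCoeff ^ 2) *
    (F.roots.map fun z => algebraMap k A z ^ 2 - algebraMap k A z * S + P).prod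

lemma nrm_spec [IsAlgClosed k] {A : Type*} [CommRing A] [Algebra k A] (F : k[X]) {x y S P : A}
    (hS : x + y = S) (hP : x * y = P) : aeval x F * aeval y F = nrm F S P := by
  have h1 := (IsAlgClosed.splits F).eq_prod_roots
  have h2 : ∀ z : A, aeval z F = algebraMap k A F.leadingCoeff *
      (F.roots.map fun a => z - algebraMap k A a).prod := by
    intro z
    conv_lhs => rw [h1]
    rw [map_mul, aeval_C, map_multiset_prod, Multiset.map_map]
    congr 3
    funext a
    simp
  rw [h2, h2]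
  unfold nrm
  rw [map_pow, mul_mul_mul_comm, ← Multiset.prod_map_mul, pow_two]
  congr 3
  funext z
  rw [← hS, ← hP]
  ring

lemma nrm_map {A B : Type*} [CommRing A] [Algebra k A] [CommRing B] [Algebra k B]
    (f : A →ₐ[k] B) (F : k[X]) (S P : A) : f (nrm F S P) = nrm F (f S) (f P) := by
  unfold nrm
  rw [map_mul, AlgHom.commutes, map_multiset_prod, Multiset.map_map]
  congr 3
  funext z
  simp

lemma nrm_degree [IsAlgClosed k] {A : Type*} [CommRing A] [Algebra k A] (F : k[X]) {S P : A[X]}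
    (hS : S.natDegree ≤ 1) (hP : P.natDegree ≤ 1) : (nrm F S P).natDegree ≤ F.natDegree := by
  unfold nrm
  have h1 : (algebraMap k A[X] (F.leadingCoeff ^ 2)) = C (algebraMap k A (F.leadingCoeff ^ 2)) := rfl
  rw [h1]
  refine (natDegree_C_mul_le _ _).trans ?_
  have h2 : Multiset.card F.roots ≤ F.natDegree := card_roots' F
  refine le_trans ?_ h2
  have key : ∀ m : Multiset k, ((m.map fun z => (algebraMap k A[X] z) ^ 2 -
      algebraMap k A[X] z * S + P).prod).natDegree ≤ Multiset.card m := by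
    intro m
    induction m using Multiset.induction_on with
    | empty => simp
    | cons a m ih =>
      rw [Multiset.map_cons, Multiset.prod_cons, Multiset.card_cons]
      refine natDegree_mul_le.trans ?_
      have h3 : ((algebraMap k A[X] a) ^ 2 - algebraMap k A[X] a * S + P).natDegree ≤ 1 := by
        have h4 : (algebraMap k A[X] a) = C (algebraMap k A a) := rfl
        rw [h4, ← C_pow]
        refine (natDegree_add_le _ _).trans (max_le ?_ hP)
        refine (natDegree_sub_le _ _).trans (max_le ?_ ((natDegree_C_mul_le _ _).trans hS))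
        rw [natDegree_C]
        exact zero_le_one
      omega
  exact key _

end nrm

section pol

variable {A : Type*} [CommRing A] {n : ℕ}

/-- A polynomial without constant term. -/
noncomputable def pol (g : Fin n → A) : A[X] := ∑ i : Fin n, C (g i) * X ^ ((i : ℕ) + 1)

lemma pol_degree (g : Fin n → A) : (pol g).natDegree ≤ n := by
  unfold pol
  refine natDegree_sum_le_of_forall_le _ _ fun i _ => ?_
  refine (natDegree_C_mul_X_pow_le _ _).trans ?_
  omega

lemma pol_coeff (g : Fin n → A) (j : Fin n) : (pol g).coeff ((j : ℕ) + 1) = g j := by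
  unfold pol
  rw [finsetSum_coeff, Finset.sum_eq_single j]
  · simp
  · intro i _ hij
    rw [coeff_C_mul, coeff_X_pow, if_neg, mul_zero]
    intro h
    apply hij
    apply Fin.ext
    omega
  · intro h
    exact absurd (Finset.mem_univ j) h

lemma pol_eval (g : Fin n → A) : (pol g).eval 0 = 0 := by
  unfold pol
  rw [eval_finsetSum]
  apply Finset.sum_eq_zero
  intro i _
  simp

lemma pol_zero (g : Fin n → A) (h : pol g = 0) (j : Fin n) : g j = 0 := by
  rw [← pol_coeff g j, h, coeff_zero]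

lemma pol_map {B : Type*} [CommRing B] (f : A →+* B) (g : Fin n → A) :
    (pol g).map f = pol (fun i => f (g i)) := by
  unfold pol
  rw [Polynomial.map_sum]
  simp

end pol

section contact

variable {k : Type u} [Field k]

/-- The right hand side of the equation of the threefold. -/
noncomputable def GG {A : Type*} [CommRing A] [Algebra k A] (al be P Q : k[X]) (c₁ c₂ : k)
    (S M Z : A) : A :=
  Z ^ 3 - 3 * nrm al S M * Z + 2 * nrm be S M - algebraMap k A c₁ * nrm P S M -
    algebraMap k A c₂ * nrm Q S M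

lemma GG_map {A B : Type*} [CommRing A] [Algebra k A] [CommRing B] [Algebra k B]
    (f : A →ₐ[k] B) (al be P Q : k[X]) (c₁ c₂ : k) (S M Z : A) :
    f (GG al be P Q c₁ c₂ S M Z) = GG al be P Q c₁ c₂ (f S) (f M) (f Z) := by
  unfold GG
  simp only [map_sub, map_add, map_mul, map_pow, nrm_map, AlgHom.commutes, map_ofNat]

variable [IsAlgClosed k]

lemma GG_degree {A : Type*} [CommRing A] [Algebra k A] {al be P Q : k[X]} {c₁ c₂ : k}
    (dal : al.natDegree ≤ 8) (dbe : be.natDegree ≤ 12) (dP : P.natDegree ≤ 12)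
    (dQ : Q.natDegree ≤ 12) {S M Z : A[X]} (hS : S.natDegree ≤ 1) (hM : M.natDegree ≤ 1)
    (hZ : Z.natDegree ≤ 4) : (GG al be P Q c₁ c₂ S M Z).natDegree ≤ 12 := by
  have e1 : ∀ c : k, algebraMap k A[X] c = C (algebraMap k A c) := fun c => rfl
  have e2 : (3 : A[X]) = C 3 := (map_ofNat C 3).symm
  have e3 : (2 : A[X]) = C 2 := (map_ofNat C 2).symm
  have h1 : (Z ^ 3).natDegree ≤ 12 := natDegree_pow_le.trans (by omega)
  have h2 : (3 * nrm al S M * Z).natDegree ≤ 12 := by
    rw [e2, mul_assoc]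
    refine (natDegree_C_mul_le _ _).trans (natDegree_mul_le.trans ?_)
    have := nrm_degree al hS hM
    omega
  have h3 : (2 * nrm be S M).natDegree ≤ 12 := by
    rw [e3]
    exact (natDegree_C_mul_le _ _).trans ((nrm_degree be hS hM).trans dbe)
  have h4 : (algebraMap k A[X] c₁ * nrm P S M).natDegree ≤ 12 := by
    rw [e1]
    exact (natDegree_C_mul_le _ _).trans ((nrm_degree P hS hM).trans dP)
  have h5 : (algebraMap k A[X] c₂ * nrm Q S M).natDegree ≤ 12 := by
    rw [e1]
    exact (natDegree_C_mul_le _ _).trans ((nrm_degree Q hS hM).trans dQ)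
  unfold GG
  refine (natDegree_sub_le _ _).trans (max_le ?_ h5)
  refine (natDegree_sub_le _ _).trans (max_le ?_ h4)
  refine (natDegree_add_le _ _).trans (max_le ?_ h3)
  exact (natDegree_sub_le _ _).trans (max_le h1 h2)

/-- The twelve parameters. -/
abbrev Ix : Type := Fin 2 ⊕ (Fin 4 ⊕ Fin 6)

/-- Block CONTACT. -/
theorem contact [CharZero k] {al be P Q : k[X]} (dal : al.natDegree ≤ 8)
    (dbe : be.natDegree ≤ 12) (dP : P.natDegree ≤ 12) (dQ : Q.natDegree ≤ 12)
    {S₀ M₀ ξ ω c₁ c₂ : k} (h0 : 3 * ω ^ 2 = 4 * GG al be P Q c₁ c₂ S₀ M₀ ξ) :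
    ∃ (v₁ v₂ c : k) (Xp Op : k[X]), (v₁ ≠ 0 ∨ v₂ ≠ 0 ∨ Xp ≠ C ξ ∨ Op ≠ C ω) ∧
      Xp.eval 0 = ξ ∧ Op.eval 0 = ω ∧ Op.natDegree ≤ 6 ∧
      3 * Op ^ 2 = 4 * GG al be P Q c₁ c₂ (C S₀ + C v₁ * X) (C M₀ + C v₂ * X) Xp +
        C c * X ^ 12 := by
  classical
  let R := MvPolynomial Ix k
  obtain ⟨Sg, hSg⟩ : ∃ Sg : R[X], Sg = C (MvPolynomial.C S₀) + C (MvPolynomial.X (Sum.inl 0)) * X :=
    ⟨_, rfl⟩
  obtain ⟨Mg, hMg⟩ : ∃ Mg : R[X], Mg = C (MvPolynomial.C M₀) + C (MvPolynomial.X (Sum.inl 1)) * X :=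
    ⟨_, rfl⟩
  obtain ⟨Zg, hZg⟩ : ∃ Zg : R[X], Zg = C (MvPolynomial.C ξ) +
    pol (fun i : Fin 4 => (MvPolynomial.X (Sum.inr (Sum.inl i)) : R)) := ⟨_, rfl⟩
  obtain ⟨Og, hOg⟩ : ∃ Og : R[X], Og = C (MvPolynomial.C ω) +
    pol (fun i : Fin 6 => (MvPolynomial.X (Sum.inr (Sum.inr i)) : R)) := ⟨_, rfl⟩
  have dS : Sg.natDegree ≤ 1 := by
    rw [hSg]
    refine (natDegree_add_le _ _).trans (max_le (by rw [natDegree_C]; exact zero_le_one) ?_)
    exact (natDegree_C_mul_le _ _).trans natDegree_X_le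
  have dM : Mg.natDegree ≤ 1 := by
    rw [hMg]
    refine (natDegree_add_le _ _).trans (max_le (by rw [natDegree_C]; exact zero_le_one) ?_)
    exact (natDegree_C_mul_le _ _).trans natDegree_X_le
  have dZ : Zg.natDegree ≤ 4 := by
    rw [hZg]
    exact (natDegree_add_le _ _).trans (max_le (by rw [natDegree_C]; omega) (pol_degree _))
  have dO : Og.natDegree ≤ 6 := by
    rw [hOg]
    exact (natDegree_add_le _ _).trans (max_le (by rw [natDegree_C]; omega) (pol_degree _))
  obtain ⟨E, hE⟩ : ∃ E : R[X], E = 3 * Og ^ 2 - 4 * GG al be P Q c₁ c₂ Sg Mg Zg := ⟨_, rfl⟩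
  have e3 : (3 : R[X]) = C 3 := (map_ofNat C 3).symm
  have e4 : (4 : R[X]) = C 4 := (map_ofNat C 4).symm
  have dE : E.natDegree ≤ 12 := by
    rw [hE, e3, e4]
    refine (natDegree_sub_le _ _).trans (max_le ?_ ?_)
    · exact (natDegree_C_mul_le _ _).trans (natDegree_pow_le.trans (by omega))
    · exact (natDegree_C_mul_le _ _).trans (GG_degree dal dbe dP dQ dS dM dZ)
  -- specialisation
  let f : (Ix → k) → (R[X] →ₐ[k] k[X]) := fun x => mapAlgHom (MvPolynomial.aeval x)
  have fC : ∀ (x : Ix → k) (a : R), f x (C a) = C (MvPolynomial.aeval x a) := by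
    intro x a
    exact map_C _
  have fX : ∀ x : Ix → k, f x X = X := fun x => map_X _
  have fS : ∀ x : Ix → k, f x Sg = C S₀ + C (x (Sum.inl 0)) * X := by
    intro x
    rw [hSg, map_add, map_mul, fC, fC, fX, MvPolynomial.aeval_C, MvPolynomial.aeval_X]
    rfl
  have fM : ∀ x : Ix → k, f x Mg = C M₀ + C (x (Sum.inl 1)) * X := by
    intro x
    rw [hMg, map_add, map_mul, fC, fC, fX, MvPolynomial.aeval_C, MvPolynomial.aeval_X]
    rfl
  have fZ : ∀ x : Ix → k, f x Zg = C ξ + pol (fun i : Fin 4 => x (Sum.inr (Sum.inl i))) := by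
    intro x
    rw [hZg, map_add, fC, MvPolynomial.aeval_C]
    congr 1
    have := pol_map (MvPolynomial.aeval x : R →ₐ[k] k).toRingHom
      (fun i : Fin 4 => (MvPolynomial.X (Sum.inr (Sum.inl i)) : R))
    refine this.trans ?_
    congr 1
    funext i
    exact MvPolynomial.aeval_X x _
  have fO : ∀ x : Ix → k, f x Og = C ω + pol (fun i : Fin 6 => x (Sum.inr (Sum.inr i))) := by
    intro x
    rw [hOg, map_add, fC, MvPolynomial.aeval_C]
    congr 1
    have := pol_map (MvPolynomial.aeval x : R →ₐ[k] k).toRingHom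
      (fun i : Fin 6 => (MvPolynomial.X (Sum.inr (Sum.inr i)) : R))
    refine this.trans ?_
    congr 1
    funext i
    exact MvPolynomial.aeval_X x _
  have fE : ∀ x : Ix → k, f x E = 3 * (f x Og) ^ 2 - 4 * GG al be P Q c₁ c₂ (f x Sg) (f x Mg)
      (f x Zg) := by
    intro x
    rw [hE, map_sub, map_mul, map_mul, map_pow, GG_map, map_ofNat, map_ofNat]
  have fcoeff : ∀ (x : Ix → k) (j : ℕ), (f x E).coeff j = MvPolynomial.eval x (E.coeff j) := by
    intro x j
    have h1 : (f x E).coeff j = MvPolynomial.aeval x (E.coeff j) := coeff_map _ _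
    rw [h1]
    exact congrArg (fun g : R →+* k => g (E.coeff j)) (MvPolynomial.coe_aeval_eq_eval x)
  have hcard : 11 < Nat.card Ix := by
    rw [Nat.card_eq_fintype_card]
    simp [Ix]
  obtain ⟨x, hx0, hx⟩ := Helper71.SE.exists_common_zero (fun j : Fin 11 => E.coeff ((j : ℕ) + 1)) (by
    intro j
    change MvPolynomial.eval 0 (E.coeff ((j : ℕ) + 1)) = 0
    rw [← fcoeff 0 ((j : ℕ) + 1), fE, fS, fM, fZ, fO]
    have hp : ∀ n : ℕ, (pol (fun _ : Fin n => (0 : k))) = 0 := by
      intro n
      unfold pol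
      simp
    simp only [Pi.zero_apply, hp, C_0, zero_mul, add_zero]
    have hg := GG_map (Algebra.ofId k k[X]) al be P Q c₁ c₂ S₀ M₀ ξ
    have hof : ∀ a : k, (Algebra.ofId k k[X]) a = C a := fun a => rfl
    rw [hof, hof, hof, hof] at hg
    rw [← hg]
    have h3' : (3 : k[X]) = C 3 := (map_ofNat C 3).symm
    have h4' : (4 : k[X]) = C 4 := (map_ofNat C 4).symm
    rw [h3', h4', ← C_pow, ← C_mul, ← C_mul, ← C_sub, coeff_C, if_neg (by omega)]) hcard
  refine ⟨x (Sum.inl 0), x (Sum.inl 1), (f x E).coeff 12, f x Zg, f x Og, ?_, ?_, ?_, ?_, ?_⟩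
  · by_contra hcon
    push Not at hcon
    obtain ⟨h1, h2, h3, h4⟩ := hcon
    rw [fZ] at h3
    rw [fO] at h4
    have h3' := pol_zero _ (add_eq_left.mp h3)
    have h4' := pol_zero _ (add_eq_left.mp h4)
    apply hx0
    funext i
    rcases i with i | i | i
    · fin_cases i
      · exact h1
      · exact h2
    · exact h3' i
    · exact h4' i
  · rw [fZ, eval_add, eval_C, pol_eval, add_zero]
  · rw [fO, eval_add, eval_C, pol_eval, add_zero]
  · rw [fO]
    exact (natDegree_add_le _ _).trans (max_le (by rw [natDegree_C]; omega) (pol_degree _))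
  · have h1 : f x E = C ((f x E).coeff 12) * X ^ 12 := by
      have hd : (f x E).natDegree ≤ 12 := (natDegree_map_le).trans dE
      ext j
      rw [coeff_C_mul_X_pow]
      split_ifs with hj
      · rw [hj]
      rcases Nat.lt_or_ge 12 j with hj' | hj'
      · exact coeff_eq_zero_of_natDegree_lt (lt_of_le_of_lt hd hj')
      rcases Nat.eq_zero_or_pos j with hj0 | hj0
      · subst hj0
        rw [coeff_zero_eq_eval_zero, fE]
        have hev := GG_map (aeval (0 : k)) al be P Q c₁ c₂ (f x Sg) (f x Mg) (f x Zg)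
        rw [coe_aeval_eq_eval] at hev
        rw [eval_sub, eval_mul, eval_mul, eval_pow]
        have e1 : (eval 0) (GG al be P Q c₁ c₂ (f x Sg) (f x Mg) (f x Zg)) =
          GG al be P Q c₁ c₂ S₀ M₀ ξ := by
          rw [hev]
          congr 1
          · rw [fS]; simp
          · rw [fM]; simp
          · rw [fZ, eval_add, eval_C, pol_eval, add_zero]
        have e2 : eval 0 (f x Og) = ω := by rw [fO, eval_add, eval_C, pol_eval, add_zero]
        rw [e1, e2, eval_ofNat, eval_ofNat, h0, sub_self]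
      · have := hx ⟨j - 1, by omega⟩
        change MvPolynomial.eval x (E.coeff (j - 1 + 1)) = 0 at this
        rw [Nat.sub_add_cancel hj0] at this
        rw [fcoeff]
        exact this
    rw [← h1, fE, fS, fM]
    ring

end contact

end Pool.Agent.Helper83.KV
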