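import Mathlib
import Pool.Agent.Helper9.NS
import Pool.Agent.Helper51.VK.Jsym
import Pool.Agent.Helper83.KV.Contact
import Pool.Agent.Helper83.KV.FF

/-!
# The rational curves
-/

set_option linter.unusedSectionVars false

namespace Pool.Agent.Helper83.KV

open VC VF Function
open Pool.Agent.Helper51.EW Pool.Agent.Helper51.VK

universe u

section maps

variable {k : Type u} [Field k] {W : Wei k} (D : Core W) {K L : Type u} [Field K] [Algebra k K]
  [Field L] [Algebra k L] (ι : K →ₐ[k] L)

lemma aeval_map' (p : Polynomial k) (x : K) :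
    Polynomial.aeval (ι x) p = ι (Polynomial.aeval x p) := Polynomial.aeval_algHom_apply ι x p

lemma xa_map (T S r ξ w : K) : xa D (ι T) (ι S) (ι r) (ι ξ) (ι w) = ι (xa D T S r ξ w) := by
  unfold xa den
  simp only [map_div₀, map_add, map_mul, map_sub, map_pow, map_ofNat, aeval_map']

lemma cub_map (T x : K) : cub D (ι T) (ι x) = ι (cub D T x) := by
  unfold cub
  simp only [map_add, map_mul, map_sub, map_pow, map_ofNat, aeval_map']

lemma del_map (T : K) : del D (ι T) = ι (del D T) := by
  unfold del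
  simp only [map_sub, map_pow, aeval_map']

lemma jac_map {T S U ξ w : K} (h : Jac D (ι T) (ι S) (ι U) (ι ξ) (ι w)) : Jac D T S U ξ w := by
  unfold Jac at *
  apply ι.injective
  simp only [del_map, aeval_map'] at h
  simp only [map_add, map_mul, map_sub, map_pow, map_ofNat]
  exact h

end maps

variable {k : Type u} [Field k] [IsAlgClosed k] [CharZero k] {W : Wei k} (D : Core W)
  {ψ : (W.surface.prod W.surface).Pt → k}

/-- An element algebraic over an algebraically closed field. -/
lemma exists_const_of_alg {K : Type u} [Field K] [Algebra k K] {f : K}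
    (h : ¬ Transcendental k f) : ∃ b : k, algebraMap k K b = f := by
  have hint : IsIntegral k f := (not_not.mp h : IsAlgebraic k f).isIntegral
  have hdeg := IsAlgClosed.degree_eq_one_of_irreducible k (minpoly.irreducible hint)
  exact (minpoly.mem_range_of_degree_eq_one k f hdeg)

/-- The equation of the pencil in terms of the polynomial `GG`. -/
lemma jac_of_GG {K : Type u} [Field K] [Algebra k K] {T S U Z w S₁ M₁ : K} {κ : k} (hκ : κ ≠ 0)
    (hS : T + S = S₁) (hM : T * S = M₁)
    (hU : U * (algebraMap k K κ * Polynomial.aeval S D.P) = Polynomial.aeval T D.Q)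
    (h : 3 * w ^ 2 = 4 * GG D.al D.be D.P D.Q κ κ⁻¹ S₁ M₁ Z) : Jac D T S U Z w := by
  have hκ' : algebraMap k K κ ≠ 0 := (_root_.map_ne_zero _).mpr hκ
  unfold GG at h
  rw [← nrm_spec D.al hS hM, ← nrm_spec D.be hS hM, ← nrm_spec D.P hS hM, ← nrm_spec D.Q hS hM,
    map_inv₀] at h
  unfold Jac
  rw [del_eq, del_eq]
  have e1 : (algebraMap k K κ)⁻¹ * (Polynomial.aeval T D.Q * Polynomial.aeval S D.Q) =
      U * (Polynomial.aeval S D.P * Polynomial.aeval S D.Q) := by
    rw [← hU]; field_simp
  rw [e1] at h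
  linear_combination U * h + (-4 * Polynomial.aeval T D.P) * hU

/-- The field of the path. -/
lemma main_field {t s κ v₁ v₂ c : k} (hκ : κ ≠ 0)
    (hP : Polynomial.aeval t D.P * Polynomial.aeval s D.P ≠ 0)
    (hQ : Polynomial.aeval t D.Q * Polynomial.aeval s D.Q ≠ 0) (Xp Op : Polynomial k)
    (h : 3 * Op ^ 2 = 4 * GG D.al D.be D.P D.Q κ κ⁻¹
      (Polynomial.C (t + s) + Polynomial.C v₁ * Polynomial.X)
      (Polynomial.C (t * s) + Polynomial.C v₂ * Polynomial.X) Xp +
        Polynomial.C c * Polynomial.X ^ 12) :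
    ∃ (K : Type u) (_ : Field K) (_ : Algebra k K) (τ T S R y yy : K),
      IsFunctionField k K ∧ Transcendental k τ ∧ T + S = algebraMap k K (t + s) +
        algebraMap k K v₁ * τ ∧ T * S = algebraMap k K (t * s) + algebraMap k K v₂ * τ ∧
      R ^ 6 * (algebraMap k K κ * Polynomial.aeval S D.P) = Polynomial.aeval T D.Q ∧
      R ≠ 0 ∧ Jac D T S (R ^ 6) (Polynomial.aeval τ Xp) y ∧
      yy ^ 2 = cub D T (xa D T S R (Polynomial.aeval τ Xp) y) ∧
      y ^ 2 = Polynomial.aeval τ Op ^ 2 - algebraMap k K (c / 3) * τ ^ 12 ∧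
      (c = 0 → y = Polynomial.aeval τ Op) := by
  obtain ⟨z, hz⟩ : ∃ z, z = zO k := ⟨_, rfl⟩
  have hztr : Transcendental k z := by rw [hz]; exact zO_tr
  have hchar : CharZero (Om k) := charZero_of_injective_algebraMap (algebraMap k (Om k)).injective
  obtain ⟨S₁, hS₁⟩ : ∃ S₁ : Om k, S₁ = algebraMap k (Om k) (t + s) + algebraMap k (Om k) v₁ * z :=
    ⟨_, rfl⟩
  obtain ⟨M₁, hM₁⟩ : ∃ M₁ : Om k, M₁ = algebraMap k (Om k) (t * s) + algebraMap k (Om k) v₂ * z :=
    ⟨_, rfl⟩
  have hS₁' : Polynomial.aeval z (Polynomial.C (t + s) + Polynomial.C v₁ * Polynomial.X) = S₁ := by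
    rw [hS₁]; simp
  have hM₁' : Polynomial.aeval z (Polynomial.C (t * s) + Polynomial.C v₂ * Polynomial.X) = M₁ := by
    rw [hM₁]; simp
  obtain ⟨e, he⟩ := IsAlgClosed.exists_pow_nat_eq (S₁ ^ 2 - 4 * M₁) (n := 2) two_pos
  obtain ⟨T, hT⟩ : ∃ T : Om k, T = (S₁ + e) / 2 := ⟨_, rfl⟩
  obtain ⟨S, hS⟩ : ∃ S : Om k, S = (S₁ - e) / 2 := ⟨_, rfl⟩
  have hsum : T + S = S₁ := by rw [hT, hS]; ring
  have hprod : T * S = M₁ := by
    rw [hT, hS]
    linear_combination -(1 / 4 : Om k) * he
  have hne : ∀ F : Polynomial k, Polynomial.aeval t F * Polynomial.aeval s F ≠ 0 →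
      Polynomial.aeval T F * Polynomial.aeval S F ≠ 0 := by
    intro F hF
    rw [nrm_spec F hsum hprod, ← hS₁', ← hM₁', ← nrm_map (Polynomial.aeval z)]
    apply aeval_ne_zero hztr
    intro h0
    have h1 := congrArg (Polynomial.aeval (0 : k)) h0
    rw [nrm_map, map_zero] at h1
    apply hF
    rw [nrm_spec F (rfl : t + s = t + s) (rfl : t * s = t * s), ← h1]
    congr 1 <;> simp
  have hPTS := hne D.P hP
  have hQTS := hne D.Q hQ
  have hPS : Polynomial.aeval S D.P ≠ 0 := right_ne_zero_of_mul hPTS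
  have hQT : Polynomial.aeval T D.Q ≠ 0 := left_ne_zero_of_mul hQTS
  have hκ' : algebraMap k (Om k) κ ≠ 0 := (_root_.map_ne_zero _).mpr hκ
  obtain ⟨R, hR⟩ := IsAlgClosed.exists_pow_nat_eq (Polynomial.aeval T D.Q /
    (algebraMap k (Om k) κ * Polynomial.aeval S D.P)) (n := 6) (by norm_num)
  have hR' : R ^ 6 * (algebraMap k (Om k) κ * Polynomial.aeval S D.P) = Polynomial.aeval T D.Q := by
    rw [hR, div_mul_cancel₀ _ (mul_ne_zero hκ' hPS)]
  have hR0 : R ≠ 0 := by
    rintro rfl
    apply hQT
    rw [← hR']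
    norm_num
  obtain ⟨y, hy, hyc⟩ : ∃ y : Om k, y ^ 2 = Polynomial.aeval z Op ^ 2 -
      algebraMap k (Om k) (c / 3) * z ^ 12 ∧ (c = 0 → y = Polynomial.aeval z Op) := by
    by_cases hc : c = 0
    · refine ⟨Polynomial.aeval z Op, ?_, fun _ => rfl⟩
      rw [hc]; simp
    · obtain ⟨y, hy⟩ := IsAlgClosed.exists_pow_nat_eq (Polynomial.aeval z Op ^ 2 -
        algebraMap k (Om k) (c / 3) * z ^ 12) (n := 2) two_pos
      exact ⟨y, hy, fun h0 => absurd h0 hc⟩
  have hc3 : algebraMap k (Om k) (c / 3) = algebraMap k (Om k) c / 3 := by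
    rw [map_div₀, map_ofNat]
  have hJ : Jac D T S (R ^ 6) (Polynomial.aeval z Xp) y := by
    refine jac_of_GG D hκ hsum hprod hR' ?_
    obtain ⟨g, hg⟩ : ∃ g, g = GG D.al D.be D.P D.Q κ κ⁻¹
      (Polynomial.C (t + s) + Polynomial.C v₁ * Polynomial.X)
      (Polynomial.C (t * s) + Polynomial.C v₂ * Polynomial.X) Xp := ⟨_, rfl⟩
    rw [← hg] at h
    have h1 := congrArg (Polynomial.aeval z) h
    have h2 : Polynomial.aeval z g = GG D.al D.be D.P D.Q κ κ⁻¹ S₁ M₁ (Polynomial.aeval z Xp) := by
      rw [hg, GG_map, hS₁', hM₁']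
    simp only [map_add, map_mul, map_pow, map_ofNat, Polynomial.aeval_C, Polynomial.aeval_X] at h1
    rw [h2] at h1
    rw [hy, hc3]
    linear_combination h1
  obtain ⟨yy, hyy⟩ := IsAlgClosed.exists_pow_nat_eq
    (cub D T (xa D T S R (Polynomial.aeval z Xp) y)) (n := 2) two_pos
  obtain ⟨K, _, _, ι, τ, b, hK, hτ, hιτ, hb⟩ := exists_ff (k := k) ![T, S, R, y, yy]
  have b0 : ι (b 0) = T := hb 0
  have b1 : ι (b 1) = S := hb 1
  have b2 : ι (b 2) = R := hb 2
  have b3 : ι (b 3) = y := hb 3
  have b4 : ι (b 4) = yy := hb 4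
  rw [← hz] at hιτ
  have hinj : Function.Injective ι := ι.toRingHom.injective
  have hιa : ∀ p : Polynomial k, ι (Polynomial.aeval τ p) = Polynomial.aeval z p := by
    intro p
    rw [← aeval_map', hιτ]
  refine ⟨K, inferInstance, inferInstance, τ, b 0, b 1, b 2, b 3, b 4, hK, hτ, ?_, ?_, ?_, ?_, ?_,
    ?_, ?_, ?_⟩
  · apply hinj
    rw [map_add, b0, b1, hsum, hS₁]
    simp only [map_add, map_mul, AlgHom.commutes, hιτ]
  · apply hinj
    rw [map_mul, b0, b1, hprod, hM₁]
    simp only [map_add, map_mul, AlgHom.commutes, hιτ]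
  · apply hinj
    rw [map_mul, map_mul, map_pow, b2, AlgHom.commutes, ← aeval_map', ← aeval_map', b0, b1]
    exact hR'
  · intro h0
    apply hR0
    rw [← b2, h0, map_zero]
  · apply jac_map D ι
    rw [b0, b1, b3, map_pow, b2, hιa]
    exact hJ
  · apply hinj
    rw [map_pow, b4, ← cub_map, ← xa_map, b0, b1, b2, b3, hιa]
    exact hyy
  · apply hinj
    rw [map_sub, map_mul, map_pow, map_pow, map_pow, b3, hιa, hιτ, AlgHom.commutes]
    exact hy
  · intro hc
    apply hinj
    rw [b3, hιa]
    exact hyc hc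

lemma res_div {K : Type u} [Field K] [Algebra k K] {v : Place k K} {x y : K} {c d : k}
    (hK : IsFunctionField k K) (h : IsRes v x c) (h' : IsRes v y d) (hd : d ≠ 0) :
    IsRes v (x / y) (c / d) := by
  rw [div_eq_mul_inv, div_eq_mul_inv]
  exact h.mul (h'.inv hK hd)

/-- The values over `τ = 0`. -/
lemma main_res {t s U ξ κ : k} (ht : del D t ≠ 0) (hs : del D s ≠ 0) (hU : U ≠ 0)
    (hn : nn D t s U ξ ≠ 0)
    (hn' : nn D t s (del D t / (del D s * U)) ξ ≠ 0) (hκ : κ ≠ 0)
    (hκU : U * (κ * Polynomial.aeval s D.P) = Polynomial.aeval t D.Q) {K : Type u} [Field K]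
    [Algebra k K] (hK : IsFunctionField k K) {τ T S R : K} {v₁ v₂ : k}
    (h1 : T + S = algebraMap k K (t + s) + algebraMap k K v₁ * τ)
    (h2 : T * S = algebraMap k K (t * s) + algebraMap k K v₂ * τ)
    (h3 : R ^ 6 * (algebraMap k K κ * Polynomial.aeval S D.P) = Polynomial.aeval T D.Q)
    (v : Place k K) (hτ : IsRes v τ 0) :
    ∃ t' s' r : k, IsRes v T t' ∧ IsRes v S s' ∧ IsRes v R r ∧ r ≠ 0 ∧
      nn D t' s' (r ^ 6) ξ ≠ 0 ∧ ((t' = t ∧ s' = s ∧ r ^ 6 = U) ∨
        (t' = s ∧ s' = t ∧ r ^ 6 = del D s * U / del D t)) := by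
  have hsum : IsRes v (T + S) (t + s) := by
    rw [h1]
    have := (isRes_const (v := v) (t + s)).add ((isRes_const v₁).mul hτ)
    rwa [mul_zero, add_zero] at this
  have hprod : IsRes v (T * S) (t * s) := by
    rw [h2]
    have := (isRes_const (v := v) (t * s)).add ((isRes_const v₂).mul hτ)
    rwa [mul_zero, add_zero] at this
  have h4 : IsRes v (4 : K) (4 : k) := by
    have := isRes_const (v := v) (4 : k)
    rwa [map_ofNat] at this
  have hhalf : IsRes v ((1 : K) / 2) ((1 : k) / 2) := by
    have := isRes_const (v := v) ((1 : k) / 2)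
    rwa [map_div₀, map_one, map_ofNat] at this
  have h20 : (2 : K) ≠ 0 := by
    have : CharZero K := charZero_of_injective_algebraMap (algebraMap k K).injective
    exact two_ne_zero
  obtain ⟨e, he1, he2⟩ := exists_res_of_pow hK two_ne_zero (x := T - S) (v := v)
    (c := (t - s) ^ 2) (by
      have := (hsum.pow 2).sub (h4.mul hprod)
      convert this using 1 <;> ring)
  have hT : IsRes v T ((t + s + e) / 2) := by
    have := hhalf.mul (hsum.add he1)
    convert this using 1
    · field_simp; ring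
    · field_simp
  have hS : IsRes v S ((t + s - e) / 2) := by
    have := hhalf.mul (hsum.sub he1)
    convert this using 1
    · field_simp; ring
    · field_simp
  have hdt : Polynomial.aeval t D.P * Polynomial.aeval t D.Q ≠ 0 := by rwa [← del_eq]
  have hds : Polynomial.aeval s D.P * Polynomial.aeval s D.Q ≠ 0 := by rwa [← del_eq]
  have hRes : ∀ t' s' : k, IsRes v T t' → IsRes v S s' → Polynomial.aeval s' D.P ≠ 0 →
      IsRes v (R ^ 6) (Polynomial.aeval t' D.Q / (κ * Polynomial.aeval s' D.P)) := by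
    intro t' s' ht' hs' hP'
    have hne : κ * Polynomial.aeval s' D.P ≠ 0 := mul_ne_zero hκ hP'
    have h5 : IsRes v (algebraMap k K κ * Polynomial.aeval S D.P) (κ * Polynomial.aeval s' D.P) :=
      (isRes_const κ).mul (isRes_aeval' hs' _)
    have h6 : R ^ 6 = Polynomial.aeval T D.Q / (algebraMap k K κ * Polynomial.aeval S D.P) := by
      rw [← h3, mul_div_assoc, div_self (h5.ne_zero hne), mul_one]
    rw [h6]
    exact res_div hK (isRes_aeval' ht' _) h5 hne
  have h5 : (e - (t - s)) * (e + (t - s)) = 0 := by linear_combination he2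
  rcases mul_eq_zero.mp h5 with h5 | h5
  · have he : e = t - s := sub_eq_zero.mp h5
    have hT' : IsRes v T t := by
      convert hT using 1
      rw [he]; ring
    have hS' : IsRes v S s := by
      convert hS using 1
      rw [he]; ring
    have h6 := hRes t s hT' hS' (left_ne_zero_of_mul hds)
    have h7 : Polynomial.aeval t D.Q / (κ * Polynomial.aeval s D.P) = U := by
      rw [← hκU, mul_div_assoc, div_self (mul_ne_zero hκ (left_ne_zero_of_mul hds)), mul_one]
    rw [h7] at h6
    obtain ⟨r, hr1, hr2⟩ := exists_res_of_pow hK (by norm_num) h6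
    have hr0 : r ≠ 0 := by
      rintro rfl
      apply hU
      rw [← hr2]
      norm_num
    exact ⟨t, s, r, hT', hS', hr1, hr0, by rw [hr2]; exact hn, Or.inl ⟨rfl, rfl, hr2⟩⟩
  · have he : e = s - t := by linear_combination h5
    have hT' : IsRes v T s := by
      convert hT using 1
      rw [he]; ring
    have hS' : IsRes v S t := by
      convert hS using 1
      rw [he]; ring
    have h6 := hRes s t hT' hS' (left_ne_zero_of_mul hdt)
    have h7 : Polynomial.aeval s D.Q / (κ * Polynomial.aeval t D.P) = del D s * U / del D t := by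
      rw [del_eq, del_eq, div_eq_div_iff (mul_ne_zero hκ (left_ne_zero_of_mul hdt)) hdt]
      linear_combination -(Polynomial.aeval s D.Q * Polynomial.aeval t D.P) * hκU
    rw [h7] at h6
    obtain ⟨r, hr1, hr2⟩ := exists_res_of_pow hK (by norm_num) h6
    have hU0 : del D s * U / del D t ≠ 0 := div_ne_zero (mul_ne_zero hs hU) ht
    have hr0 : r ≠ 0 := by
      rintro rfl
      apply hU0
      rw [← hr2]
      norm_num
    have hn2 : nn D s t (del D s * U / del D t) ξ ≠ 0 := by
      have := nn_swap D (T := t) (S := s) (ξ := ξ) (div_ne_zero ht (mul_ne_zero hs hU))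
      rw [inv_div] at this
      rw [this]
      exact div_ne_zero hn' (pow_ne_zero 2 (div_ne_zero ht (mul_ne_zero hs hU)))
    exact ⟨s, t, r, hT', hS', hr1, hr0, by rw [hr2]; exact hn2, Or.inr ⟨rfl, rfl, hr2⟩⟩

/-- The value over `τ = 0`. -/
lemma main_val (h : Alt W ψ) {t s U ξ ω κ : k} (ht : del D t ≠ 0) (hs : del D s ≠ 0) (hU : U ≠ 0)
    (hJ : Jac D t s U ξ ω) (hn : nn D t s U ξ ≠ 0)
    (hn' : nn D t s (del D t / (del D s * U)) ξ ≠ 0) (hκ : κ ≠ 0)
    (hκU : U * (κ * Polynomial.aeval s D.P) = Polynomial.aeval t D.Q) {K : Type u} [Field K]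
    [Algebra k K] (hK : IsFunctionField k K) {τ T S R y yy : K} {v₁ v₂ : k} {Xp : Polynomial k}
    (hXp : Xp.eval 0 = ξ)
    (h1 : T + S = algebraMap k K (t + s) + algebraMap k K v₁ * τ)
    (h2 : T * S = algebraMap k K (t * s) + algebraMap k K v₂ * τ)
    (h3 : R ^ 6 * (algebraMap k K κ * Polynomial.aeval S D.P) = Polynomial.aeval T D.Q)
    (hR : R ≠ 0) (hJK : Jac D T S (R ^ 6) (Polynomial.aeval τ Xp) y)
    (hyy : yy ^ 2 = cub D T (xa D T S R (Polynomial.aeval τ Xp) y)) (v : Place k K)
    (hτ : IsRes v τ 0) (hy : IsRes v y ω) :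
    ψ (W.surface.eval hK (ptt D T (xa D T S R (Polynomial.aeval τ Xp) y) yy) v,
      W.surface.eval hK (ptt D S (xb D T S R (Polynomial.aeval τ Xp) y / R ^ 2) (yy / R ^ 3)) v) =
      hh D ψ t s U ξ ω := by
  have hX : IsRes v (Polynomial.aeval τ Xp) ξ := by
    rw [← hXp]
    exact hτ.poly
  obtain ⟨t', s', r, hT, hS, hr, hr0, hnn, hcase⟩ :=
    main_res D ht hs hU hn hn' hκ hκU hK h1 h2 h3 v hτ
  rw [hh_val D h hK v hR hJK hyy hT hS hr hr0 hX hy hnn]
  rcases hcase with ⟨rfl, rfl, h6⟩ | ⟨rfl, rfl, h6⟩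
  · rw [h6]
  · rw [h6, hh_sym D h ht hs hU hJ hn hn']

/-- The denominator does not vanish. -/
lemma main_den {t s U ξ κ : k} (ht : del D t ≠ 0) (hs : del D s ≠ 0) (hU : U ≠ 0)
    (hn : nn D t s U ξ ≠ 0)
    (hn' : nn D t s (del D t / (del D s * U)) ξ ≠ 0) (hκ : κ ≠ 0)
    (hκU : U * (κ * Polynomial.aeval s D.P) = Polynomial.aeval t D.Q) {K : Type u} [Field K]
    [Algebra k K] (hK : IsFunctionField k K) {τ T S R : K} {v₁ v₂ : k} {Xp : Polynomial k}
    (hXp : Xp.eval 0 = ξ) (hτ : Transcendental k τ)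
    (h1 : T + S = algebraMap k K (t + s) + algebraMap k K v₁ * τ)
    (h2 : T * S = algebraMap k K (t * s) + algebraMap k K v₂ * τ)
    (h3 : R ^ 6 * (algebraMap k K κ * Polynomial.aeval S D.P) = Polynomial.aeval T D.Q) :
    den D T S R (Polynomial.aeval τ Xp) ≠ 0 := by
  have hchar : CharZero K := charZero_of_injective_algebraMap (algebraMap k K).injective
  apply den_ne
  obtain ⟨v, hv⟩ := exists_place hK hτ
  have hv' : IsRes v τ 0 := isRes_zero_iff.mpr hv
  have hX : IsRes v (Polynomial.aeval τ Xp) ξ := by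
    rw [← hXp]
    exact hv'.poly
  obtain ⟨t', s', r, hT, hS, hr, hr0, hnn, -⟩ :=
    main_res D ht hs hU hn hn' hκ hκU hK h1 h2 h3 v hv'
  have h4 : IsRes v (nn D T S (R ^ 6) (Polynomial.aeval τ Xp)) (nn D t' s' (r ^ 6) ξ) := by
    unfold nn
    exact (((hr.pow 6).mul ((hX.pow 3).sub ((isRes_three.mul ((isRes_aeval' hT _).mul
      (isRes_aeval' hS _))).mul hX))).add ((isRes_aeval' hT _).pow 3)).add
      (((hr.pow 6).pow 2).mul ((isRes_aeval' hS _).pow 3))
  exact h4.ne_zero hnn

lemma neg_hh (h : Alt W ψ) {t s U ξ ω w : k} (hU : U ≠ 0) (hJ : Jac D t s U ξ w)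
    (hn : nn D t s U ξ ≠ 0) (hω : ω ^ 2 = w ^ 2) :
    (ω = w ∧ hh D ψ t s U ξ ω = hh D ψ t s U ξ w) ∨
      (ω = -w ∧ hh D ψ t s U ξ ω = -hh D ψ t s U ξ w) := by
  have h1 : (ω - w) * (ω + w) = 0 := by linear_combination hω
  rcases mul_eq_zero.mp h1 with h1 | h1
  · left
    rw [sub_eq_zero.mp h1]
    exact ⟨rfl, rfl⟩
  · right
    rw [eq_neg_of_add_eq_zero_left h1]
    exact ⟨rfl, hh_neg D h hU hJ hn⟩

/-- The constant case is impossible. -/
lemma const_case {a C₀ ξ w : k} {Xp Op : Polynomial k} (hsm : C₀ ^ 2 ≠ 4 * a ^ 3)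
    (h : 3 * Op ^ 2 = 4 * (Xp ^ 3 - 3 * Polynomial.C a * Xp + Polynomial.C C₀))
    (h1 : Xp.eval 0 = ξ) (h2 : Op.eval 0 = w) : Xp = Polynomial.C ξ ∧ Op = Polynomial.C w := by
  obtain ⟨γ, hγ⟩ := IsAlgClosed.exists_pow_nat_eq (3 / 4 : k) (n := 2) two_pos
  have hγ0 : γ ≠ 0 := by
    rintro rfl
    norm_num at hγ
  have hE : 4 * (-3 * a) ^ 3 + 27 * C₀ ^ 2 ≠ 0 := by
    intro h0
    apply hsm
    linear_combination (1 / 27 : k) * h0
  have hinj : Function.Injective (algebraMap (Polynomial k) (RatFunc k)) :=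
    IsFractionRing.injective _ _
  have hC : ∀ c : k, RatFunc.C c = algebraMap (Polynomial k) (RatFunc k) (Polynomial.C c) :=
    fun c => rfl
  obtain ⟨x0, y0, e1, e2⟩ := Helper83.EW.no_points hE
    (algebraMap (Polynomial k) (RatFunc k) Xp)
    (RatFunc.C γ * algebraMap (Polynomial k) (RatFunc k) Op) (by
      have h3 : Polynomial.C γ ^ 2 * (4 : Polynomial k) = 3 := by
        rw [← Polynomial.C_pow, hγ]
        have e4 : (4 : Polynomial k) = Polynomial.C 4 := (map_ofNat Polynomial.C 4).symm
        have e3 : (3 : Polynomial k) = Polynomial.C 3 := (map_ofNat Polynomial.C 3).symm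
        rw [e4, e3, ← Polynomial.C_mul]
        congr 1
        norm_num
      have h4 : (Polynomial.C γ * Op) ^ 2 = Xp ^ 3 + Polynomial.C (-3 * a) * Xp +
          Polynomial.C C₀ := by
        have h40 : (3 : Polynomial k) ≠ 0 := by
          have e3 : (3 : Polynomial k) = Polynomial.C 3 := (map_ofNat Polynomial.C 3).symm
          rw [e3, Ne, Polynomial.C_eq_zero]
          norm_num
        have e3 : (3 : Polynomial k) = Polynomial.C 3 := (map_ofNat Polynomial.C 3).symm
        have h5 : Polynomial.C (-3 * a) = -(3 * Polynomial.C a) := by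
          rw [e3, ← Polynomial.C_mul, ← Polynomial.C_neg]
          congr 1
          ring
        rw [h5]
        apply mul_left_cancel₀ h40
        linear_combination Polynomial.C γ ^ 2 * h + (Xp ^ 3 - 3 * Polynomial.C a * Xp +
          Polynomial.C C₀) * h3
      rw [hC, hC, hC, ← map_mul, ← map_pow, ← map_pow, ← map_mul, ← map_add, ← map_add, h4])
  rw [hC] at e1
  have e3 := hinj e1
  rw [hC, hC, ← map_mul] at e2
  have e4 := hinj e2
  have e5 : Op = Polynomial.C (γ⁻¹ * y0) := by
    rw [Polynomial.C_mul, ← e4, ← mul_assoc, ← Polynomial.C_mul, inv_mul_cancel₀ hγ0,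
      Polynomial.C_1, one_mul]
  constructor
  · rw [← h1, e3, Polynomial.eval_C]
  · rw [← h2, e5, Polynomial.eval_C]

/-- Block MAIN. -/
theorem main (h : Alt W ψ) {t s U ξ w : k} (ht : del D t ≠ 0) (hs : del D s ≠ 0) (hU : U ≠ 0)
    (hJ : Jac D t s U ξ w) (hn : nn D t s U ξ ≠ 0)
    (hn' : nn D t s (del D t / (del D s * U)) ξ ≠ 0) (hw : w ≠ 0)
    (hsm : (2 * (Polynomial.aeval t D.be * Polynomial.aeval s D.be) - del D t / U -
      del D s * U) ^ 2 ≠ 4 * (Polynomial.aeval t D.al * Polynomial.aeval s D.al) ^ 3) :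
    hh D ψ t s U ξ w = 0 := by
  have hdt : Polynomial.aeval t D.P * Polynomial.aeval t D.Q ≠ 0 := by rwa [← del_eq]
  have hds : Polynomial.aeval s D.P * Polynomial.aeval s D.Q ≠ 0 := by rwa [← del_eq]
  have hPs := left_ne_zero_of_mul hds
  have hPt := left_ne_zero_of_mul hdt
  have hQs := right_ne_zero_of_mul hds
  have hQt := right_ne_zero_of_mul hdt
  obtain ⟨κ, hκ⟩ : ∃ κ : k, κ = Polynomial.aeval t D.Q / (U * Polynomial.aeval s D.P) := ⟨_, rfl⟩
  have hκ0 : κ ≠ 0 := by
    rw [hκ]
    exact div_ne_zero hQt (mul_ne_zero hU hPs)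
  have hκU : U * (κ * Polynomial.aeval s D.P) = Polynomial.aeval t D.Q := by
    rw [hκ]; field_simp
  have hGG : GG D.al D.be D.P D.Q κ κ⁻¹ (t + s) (t * s) ξ = ξ ^ 3 -
      3 * (Polynomial.aeval t D.al * Polynomial.aeval s D.al) * ξ +
      (2 * (Polynomial.aeval t D.be * Polynomial.aeval s D.be) - del D t / U - del D s * U) := by
    unfold GG
    rw [← nrm_spec D.al rfl rfl, ← nrm_spec D.be rfl rfl, ← nrm_spec D.P rfl rfl,
      ← nrm_spec D.Q rfl rfl, del_eq, del_eq]
    have e1 : algebraMap k k κ * (Polynomial.aeval t D.P * Polynomial.aeval s D.P) =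
        Polynomial.aeval t D.P * Polynomial.aeval t D.Q / U := by
      rw [← hκU]
      field_simp
      rfl
    have e2 : algebraMap k k κ⁻¹ * (Polynomial.aeval t D.Q * Polynomial.aeval s D.Q) =
        Polynomial.aeval s D.P * Polynomial.aeval s D.Q * U := by
      rw [← hκU]
      change κ⁻¹ * _ = _
      field_simp
    rw [e1, e2]
    ring
  have h0 : 3 * w ^ 2 = 4 * GG D.al D.be D.P D.Q κ κ⁻¹ (t + s) (t * s) ξ := by
    rw [hGG]
    unfold Jac at hJ
    field_simp
    linear_combination hJ
  obtain ⟨v₁, v₂, c, Xp, Op, hne, hXp, hOp, hdeg, heq⟩ := contact D.dal D.dbe D.dP D.dQ h0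
  obtain ⟨K, _, _, τ, T, S, R, y, yy, hK, hτ, h1, h2, h3, hR, hJK, hyy, hy, hyc⟩ :=
    main_field D hκ0 (mul_ne_zero hPt hPs) (mul_ne_zero hQt hQs) Xp Op heq
  have hOp0 : Op ≠ 0 := by
    rintro rfl
    rw [Polynomial.eval_zero] at hOp
    exact hw hOp.symm
  have hOK : Polynomial.aeval τ Op ≠ 0 := aeval_ne_zero hτ hOp0
  let c₀ : (W.surface.prod W.surface).Mor K :=
    (ptt D T (xa D T S R (Polynomial.aeval τ Xp) y) yy,
      ptt D S (xb D T S R (Polynomial.aeval τ Xp) y / R ^ 2) (yy / R ^ 3))
  have hval : ∀ (v : Place k K) (ω : k), ω ^ 2 = w ^ 2 → IsRes v τ 0 → IsRes v y ω →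
      ψ ((W.surface.prod W.surface).eval hK c₀ v) = hh D ψ t s U ξ ω := by
    intro v ω hω hv hy'
    have hJ' : Jac D t s U ξ ω := by
      unfold Jac at hJ ⊢
      rw [hω]
      exact hJ
    exact main_val D h ht hs hU hJ' hn hn' hκ0 hκU hK hXp h1 h2 h3 hR hJK hyy v hv hy'
  by_cases hc : c = 0
  · by_cases hvv : v₁ = 0 ∧ v₂ = 0
    · exfalso
      rw [hvv.1, hvv.2, hc, Polynomial.C_0, zero_mul, zero_mul, add_zero, add_zero, add_zero] at heq
      have hg := GG_map (Algebra.ofId k (Polynomial k)) D.al D.be D.P D.Q κ κ⁻¹ (t + s) (t * s) 0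
      have hof : ∀ a : k, (Algebra.ofId k (Polynomial k)) a = Polynomial.C a := fun a => rfl
      have hn1 := nrm_map (Algebra.ofId k (Polynomial k)) D.al (t + s) (t * s)
      have hn2 := nrm_map (Algebra.ofId k (Polynomial k)) D.be (t + s) (t * s)
      have hn3 := nrm_map (Algebra.ofId k (Polynomial k)) D.P (t + s) (t * s)
      have hn4 := nrm_map (Algebra.ofId k (Polynomial k)) D.Q (t + s) (t * s)
      simp only [hof] at hn1 hn2 hn3 hn4
      obtain ⟨e1, e2⟩ := const_case (a := Polynomial.aeval t D.al * Polynomial.aeval s D.al)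
        (C₀ := 2 * (Polynomial.aeval t D.be * Polynomial.aeval s D.be) - del D t / U -
          del D s * U) (Xp := Xp) (Op := Op) hsm (by
          rw [heq]
          congr 1
          have h5 : GG D.al D.be D.P D.Q κ κ⁻¹ (t + s) (t * s) ξ =
            ξ ^ 3 - 3 * nrm D.al (t + s) (t * s) * ξ + (2 * nrm D.be (t + s) (t * s) -
              κ * nrm D.P (t + s) (t * s) - κ⁻¹ * nrm D.Q (t + s) (t * s)) := by
            unfold GG
            change _ - κ * _ - κ⁻¹ * _ = _
            ring
          rw [hGG, ← nrm_spec D.al rfl rfl] at h5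
          have h6 : 2 * (Polynomial.aeval t D.be * Polynomial.aeval s D.be) - del D t / U -
            del D s * U = 2 * nrm D.be (t + s) (t * s) -
              κ * nrm D.P (t + s) (t * s) - κ⁻¹ * nrm D.Q (t + s) (t * s) := by
            linear_combination h5
          rw [h6, nrm_spec D.al rfl rfl]
          unfold GG
          rw [← hn1, ← hn2, ← hn3, ← hn4]
          have e2 : (Polynomial.C (2 : k)) = 2 := map_ofNat Polynomial.C 2
          have e5 : ∀ a : k, algebraMap k (Polynomial k) a = Polynomial.C a := fun a => rfl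
          rw [e5, e5, Polynomial.C_sub, Polynomial.C_sub, Polynomial.C_mul, Polynomial.C_mul,
            Polynomial.C_mul, e2]
          ring) hXp hOp
      rcases hne with h5 | h5 | h5 | h5
      · exact h5 hvv.1
      · exact h5 hvv.2
      · exact h5 e1
      · exact h5 e2
    · -- the path to infinity
      have hden := main_den D ht hs hU hn hn' hκ0 hκU hK hXp hτ h1 h2 h3
      have hchar : CharZero K := charZero_of_injective_algebraMap (algebraMap k K).injective
      have hyy' : (yy / R ^ 3) ^ 2 = cub D S (xb D T S R (Polynomial.aeval τ Xp) y / R ^ 2) := by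
        have := pt_on D hR hJK hden
        rw [← hyy] at this
        field_simp
        linear_combination this
      have hτ1 : τ - 1 ≠ 0 := by
        intro h0
        apply hτ
        rw [sub_eq_zero.mp h0]
        exact isAlgebraic_one
      have hσ : Transcendental k (τ / (τ - 1)) := by
        by_contra hcon
        obtain ⟨b, hb⟩ := exists_const_of_alg hcon
        rw [eq_div_iff hτ1] at hb
        apply aeval_ne_zero hτ (p := Polynomial.C (b - 1) * Polynomial.X - Polynomial.C b)
        · intro h0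
          have e1 := congrArg (fun p => Polynomial.coeff p 1) h0
          have e0 := congrArg (fun p => Polynomial.coeff p 0) h0
          simp at e1 e0
          rw [e0] at e1
          norm_num at e1
        · simp only [map_sub, map_mul, Polynomial.aeval_C, Polynomial.aeval_X, map_one]
          linear_combination hb
      refine path h.kills hK c₀ hσ (a := 0) (b := 1) zero_ne_one (fun v hv => ?_) (fun v hv => ?_)
      · have h5 : IsRes v (τ / (τ - 1) - 1) (-1 : k) := by
          have := hv.sub (isRes_one (v := v))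
          rwa [zero_sub] at this
        have h6 : IsRes v τ 0 := by
          have h7 := res_div hK hv h5 (neg_ne_zero.mpr one_ne_zero)
          rw [zero_div] at h7
          convert h7 using 1
          field_simp
          ring
        refine hval v w rfl h6 ?_
        rw [hyc hc, ← hOp]
        exact h6.poly
      · have h6 : τ ∉ v.ring := by
          intro h7
          obtain ⟨b, hb⟩ := exists_res hK h7
          have h8 := hv.mul (hb.sub (isRes_one (v := v)))
          rw [div_mul_cancel₀ _ hτ1, one_mul] at h8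
          have h9 := hb.unique h8
          have : (1 : k) = 0 := by linear_combination h9
          exact one_ne_zero this
        change ψ (W.surface.eval hK (ptt D T (xa D T S R (Polynomial.aeval τ Xp) y) yy) v,
          W.surface.eval hK (ptt D S (xb D T S R (Polynomial.aeval τ Xp) y / R ^ 2)
            (yy / R ^ 3)) v) = 0
        by_cases hT : T ∈ v.ring
        · have hS : S ∉ v.ring := by
            intro hS
            have e1 : algebraMap k K v₁ * τ ∈ v.ring := by
              have : algebraMap k K v₁ * τ = T + S - algebraMap k K (t + s) := by rw [h1]; ring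
              rw [this]
              exact v.ring.sub_mem (v.ring.add_mem _ _ hT hS) (v.algebraMap_mem _)
            have e2 : algebraMap k K v₂ * τ ∈ v.ring := by
              have : algebraMap k K v₂ * τ = T * S - algebraMap k K (t * s) := by rw [h2]; ring
              rw [this]
              exact v.ring.sub_mem (v.ring.mul_mem _ _ hT hS) (v.algebraMap_mem _)
            have key : ∀ a : k, a ≠ 0 → algebraMap k K a * τ ∈ v.ring → False := by
              intro a ha hm
              apply h6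
              have : τ = algebraMap k K a⁻¹ * (algebraMap k K a * τ) := by
                rw [← mul_assoc, ← map_mul, inv_mul_cancel₀ ha, map_one, one_mul]
              rw [this]
              exact v.ring.mul_mem _ _ (v.algebraMap_mem _) hm
            by_cases h7 : v₁ = 0
            · exact key v₂ (fun h8 => hvv ⟨h7, h8⟩) e2
            · exact key v₁ h7 e1
          exact (null_of_pole_base D h hK v hyy' hS _).2
        · exact (null_of_pole_base D h hK v hyy hT _).1
  · -- the path from `w` to `-w`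
    have hc3 : c / 3 ≠ 0 := div_ne_zero hc three_ne_zero
    obtain ⟨f, hf⟩ : ∃ f : K, f = y / Polynomial.aeval τ Op := ⟨_, rfl⟩
    have hfy : y = f * Polynomial.aeval τ Op := by rw [hf, div_mul_cancel₀ _ hOK]
    have hrel : algebraMap k K (c / 3) * τ ^ 12 = (1 - f ^ 2) * Polynomial.aeval τ Op ^ 2 := by
      rw [hfy] at hy
      linear_combination hy
    have hσ : Transcendental k f := by
      by_contra hcon
      obtain ⟨b, hb⟩ := exists_const_of_alg hcon
      rw [← hb] at hrel
      apply aeval_ne_zero hτ (p := Polynomial.C (c / 3) * Polynomial.X ^ 12 -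
        Polynomial.C (1 - b ^ 2) * Op ^ 2)
      · intro h0
        have e0 := congrArg (Polynomial.eval 0) h0
        simp only [Polynomial.eval_sub, Polynomial.eval_mul, Polynomial.eval_pow,
          Polynomial.eval_C, Polynomial.eval_X, Polynomial.eval_zero, hOp] at e0
        have e1 : (1 - b ^ 2) * w ^ 2 = 0 := by linear_combination -e0
        have e2 := (mul_eq_zero.mp e1).resolve_right (pow_ne_zero 2 hw)
        rw [e2, Polynomial.C_0, zero_mul, sub_zero] at h0
        have e3 := (mul_eq_zero.mp h0).resolve_right (pow_ne_zero 12 Polynomial.X_ne_zero)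
        exact hc3 (Polynomial.C_eq_zero.mp e3)
      · simp only [map_sub, map_mul, map_pow, Polynomial.aeval_C, Polynomial.aeval_X, map_one]
        linear_combination hrel
    have hplace : ∀ (v : Place k K) (ε : k), ε ^ 2 = 1 → IsRes v f ε →
        ψ ((W.surface.prod W.surface).eval hK c₀ v) = hh D ψ t s U ξ (ε * w) := by
      intro v ε hε hv
      have h5 : IsRes v (1 - f ^ 2) 0 := by
        have := (isRes_one (v := v)).sub (hv.pow 2)
        rwa [hε, sub_self] at this
      have h6 : IsRes v τ 0 := by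
        by_cases hτv : τ ∈ v.ring
        · obtain ⟨b, hb⟩ := exists_res hK hτv
          have e1 : IsRes v (algebraMap k K (c / 3) * τ ^ 12) (c / 3 * b ^ 12) :=
            (isRes_const _).mul (hb.pow 12)
          have e2 : IsRes v ((1 - f ^ 2) * Polynomial.aeval τ Op ^ 2) (0 * (Op.eval b) ^ 2) :=
            h5.mul (hb.poly.pow 2)
          rw [hrel] at e1
          have e3 := e1.unique e2
          rw [zero_mul] at e3
          have e4 := (mul_eq_zero.mp e3).resolve_left hc3
          rw [pow_eq_zero_iff (by norm_num)] at e4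
          rwa [e4] at hb
        · exfalso
          -- `τ⁻¹` is a nonunit, `Op (τ) / τ ^ 6` is regular
          have hτ0 : τ ≠ 0 := ne_zero_of_notMem hτv
          have hi : IsRes v τ⁻¹ 0 := isRes_zero_iff.mpr (inv_nonunits hτv)
          have hreg : Polynomial.aeval τ Op / τ ^ 6 ∈ v.ring := by
            rw [Polynomial.aeval_eq_sum_range, Finset.sum_div]
            refine v.ring.toSubring.sum_mem fun i hi' => ?_
            have hile : i ≤ 6 := by
              have := Finset.mem_range.mp hi'
              omega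
            have e1 : Op.coeff i • τ ^ i / τ ^ 6 = algebraMap k K (Op.coeff i) * τ⁻¹ ^ (6 - i) := by
              rw [Algebra.smul_def, inv_pow, mul_div_assoc]
              congr 1
              rw [div_eq_iff (pow_ne_zero 6 hτ0), ← div_eq_inv_mul, eq_div_iff (pow_ne_zero _ hτ0),
                ← pow_add]
              congr 1
              omega
            rw [e1]
            exact v.ring.mul_mem _ _ (v.algebraMap_mem _) (pow_mem hi.mem _)
          obtain ⟨b, hb⟩ := exists_res hK hreg
          have e1 : IsRes v ((1 - f ^ 2) * (Polynomial.aeval τ Op / τ ^ 6) ^ 2) (0 * b ^ 2) :=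
            h5.mul (hb.pow 2)
          have e2 : (1 - f ^ 2) * (Polynomial.aeval τ Op / τ ^ 6) ^ 2 = algebraMap k K (c / 3) := by
            rw [div_pow, ← mul_div_assoc, ← hrel]
            field_simp
          rw [e2, zero_mul] at e1
          exact hc3 ((isRes_const (v := v) (c / 3)).unique e1)
      have h7 : IsRes v y (ε * w) := by
        rw [hfy, ← hOp]
        exact hv.mul h6.poly
      exact hval v (ε * w) (by rw [mul_pow, hε, one_mul]) h6 h7
    have hne1 : (1 : k) ≠ -1 := by
      intro h0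
      have : (2 : k) = 0 := by linear_combination h0
      exact two_ne_zero this
    have e1 : hh D ψ t s U ξ w = -hh D ψ t s U ξ w := by
      refine path h.kills hK c₀ hσ (a := 1) (b := -1) hne1 (fun v hv => ?_) (fun v hv => ?_)
      · rw [hplace v 1 (one_pow 2) hv, one_mul]
      · rw [hplace v (-1) (by ring) hv, neg_one_mul, hh_neg D h hU hJ hn]
    exact self_eq_neg.mp e1

end Pool.Agent.Helper83.KV
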