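import Mathlib
import Pool.Agent.Helper9.NS
import Pool.Agent.Helper51.EW.Final
import Pool.Agent.Helper83.KV.Core
import Pool.Agent.Helper83.KV.Move

/-!
# Elliptic K3 surfaces: the assembly
-/

set_option linter.unusedSectionVars false

namespace Pool.Agent.Helper83.KV

open VC VF Function
open Pool.Agent.Helper51.EW (Wei WPt Odd exists_const negAct neg)
open Pool.Agent.Helper94.EW (even_const)

universe u

variable {k : Type u} [Field k] [IsAlgClosed k] [CharZero k] {W : Wei k}

/-- An odd alternating function of at least two points vanishes. -/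
theorem odd_zero (D : Helper51.VK.Core W) {n : ℕ} (hn : 2 ≤ n) {Ψ : (W.surface.pow n).Pt → k}
    (h : Odd W n Ψ) (p : (W.surface.pow n).Pt) : Ψ p = 0 := by
  obtain ⟨i, hi⟩ : ∃ i : Fin n, i = ⟨0, by omega⟩ := ⟨_, rfl⟩
  obtain ⟨j, hj⟩ : ∃ j : Fin n, j = ⟨1, by omega⟩ := ⟨_, rfl⟩
  have hij : i ≠ j := by
    rw [hi, hj]
    intro h0
    have := congrArg Fin.val h0
    simp at this
  have hA : Helper51.VK.Alt W (fun z => Ψ (update (update p i z.1) j z.2)) := by
    refine ⟨h.kills.comp (VH.induced_two (fun K _ _ hK q => exists_const K hK q) p i j), ?_, ?_⟩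
    · intro a b
      have := (h.one (update p j b) i).2 a
      rw [update_comm hij.symm, update_comm hij.symm] at this
      exact this
    · intro a b
      have h1 := h.alt i j hij (update (update p i a) j b)
      rw [← h1]
      congr 1
      funext l
      by_cases hl : l = j
      · subst hl
        rw [Equiv.swap_apply_right, update_self, update_of_ne hij, update_self]
      · rw [update_of_ne hl]
        by_cases hl' : l = i
        · subst hl'
          rw [update_self, Equiv.swap_apply_left, update_self]
        · rw [update_of_ne hl', Equiv.swap_apply_of_ne_of_ne hl' hl, update_of_ne hl,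
            update_of_ne hl']
  have h2 := alt_zero D hA (p i) (p j)
  beta_reduce at h2
  rwa [update_eq_self, update_eq_self] at h2

theorem voisin (D : Helper51.VK.Core W) {n : ℕ} (hn : 2 ≤ n)
    (a : Fin n → W.surface.Cycles) (ha : ∀ i, (a i).sum (fun _ c => c) = 0) :
    ∃ M : ℕ, 0 < M ∧ M • ∑ σ : Equiv.Perm (Fin n), ((Equiv.Perm.sign σ : ℤˣ) : ℤ) •
      extProd (fun i => a (σ i)) ∈ (W.surface.pow n).Rat := by
  refine VH.assembly_deg (negAct W) n a ha fun E hE χ Ψ h => ?_
  have hact : ∀ p : W.surface.Pt, (negAct W).act 1 p = neg p := fun p => rfl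
  have hconst : ∀ (K : Type u) [Field K] [Algebra k K] (hK : IsFunctionField k K)
      (p : W.surface.Pt), ∃ c : W.surface.Mor K, ∀ v, W.surface.eval hK c v = p :=
    fun K _ _ hK q => exists_const K hK q
  by_cases h0 : ∃ i, χ i = 0
  · right
    obtain ⟨i, hi⟩ := h0
    refine ⟨i, fun p x y => ?_⟩
    obtain ⟨h1, h2⟩ := h.one hconst p i
    refine even_const h1 (fun q => ?_) x y
    have := h2 1 q
    rw [hi, zero_mul, AddChar.map_zero_eq_one, one_mul, hact] at this
    exact this
  · left
    push Not at h0
    have hχ : ∀ i, χ i = 1 := by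
      intro i
      have h1 := h0 i
      have : ∀ z : ZMod 2, z ≠ 0 → z = 1 := by decide
      exact this _ h1
    have hE1 : E 1 = -1 := by
      have h1 : E 1 * E 1 = 1 := by
        rw [← AddChar.map_add_eq_mul]
        have : (1 : ZMod 2) + 1 = 0 := by decide
        rw [this, AddChar.map_zero_eq_one]
      rcases mul_self_eq_one_iff.mp h1 with h2 | h2
      · exact absurd (hE.1 _ h2) (by decide)
      · exact h2
    intro p
    refine odd_zero D hn ⟨h.kills, fun p i => ?_, fun i j hij p => ?_⟩ p
    · have := h.equi p i 1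
      rw [hχ i, one_mul, hE1, hact] at this
      rw [this]; ring
    · exact h.alt i j hij (by rw [hχ i, hχ j]) p

end Pool.Agent.Helper83.KV
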