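import Mathlib

/-!
# Pairs of cubic polynomials: algebraic identities

For `w ≠ 0` the plane cubic `x' ^ 3 + α' x' + β' = w ^ 6 (x ^ 3 + α x + β)` is isomorphic to the
curve `- H ^ 2 = Rhs (Z)`. With `a₁ = α w ^ 2`, `a₂ = α' w ^ (-2)`, `b = β w ^ 3 - β' w ^ (-3)`,
`ξ₁ = w x`, `ξ₂ = x' / w` the isomorphism is `Z = - a₁ - a₂ - 3 (ξ₁ ^ 2 + ξ₁ ξ₂ + ξ₂ ^ 2)`,
`H = 9 (ξ₁ + ξ₂) (ξ₁ ^ 2 + ξ₁ ξ₂ + ξ₂ ^ 2) + 3 a₁ (ξ₁ + 2 ξ₂) + 3 a₂ (2 ξ₁ + ξ₂)`.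
-/

namespace Pool.Agent.Helper83.KV

variable {F : Type*} [Field F]

/-- The right hand side of the equation of the curve. -/
def Rhs (α α' β β' w Z : F) : F :=
  4 * Z ^ 3 - 12 * α * α' * Z - 54 * β * β' + (4 * α ^ 3 + 27 * β ^ 2) * w ^ 6 +
    (4 * α' ^ 3 + 27 * β' ^ 2) * w⁻¹ ^ 6

/-- The product of the three linear forms `Z + ω ^ j a₁ + ω ^ (2 j) a₂`. -/
def Pif (α α' w Z : F) : F := Z ^ 3 - 3 * α * α' * Z + α ^ 3 * w ^ 6 + α' ^ 3 * w⁻¹ ^ 6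

/-- The product of two of them. -/
def Qf (α α' w Z : F) : F :=
  Z ^ 2 - (α * w ^ 2 + α' * w⁻¹ ^ 2) * Z + (α * w ^ 2) ^ 2 - α * α' + (α' * w⁻¹ ^ 2) ^ 2

/-- The coordinate `x` of the point `(Z, H)`. -/
def px (α α' β β' w Z H : F) : F :=
  (9 * (β * w ^ 3 - β' * w⁻¹ ^ 3) * (Z - α * w ^ 2) - H * (Z + α * w ^ 2 - 2 * α' * w⁻¹ ^ 2)) /
    (6 * Qf α α' w Z) * w⁻¹

/-- The coordinate `x'` of the point `(Z, H)`. -/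
def px' (α α' β β' w Z H : F) : F :=
  -(9 * (β * w ^ 3 - β' * w⁻¹ ^ 3) * (Z - α' * w⁻¹ ^ 2) +
    H * (Z - 2 * α * w ^ 2 + α' * w⁻¹ ^ 2)) / (6 * Qf α α' w Z) * w

/-- The coordinate `Z` of a pair. -/
def Zf (α α' w x x' : F) : F :=
  -(α * w ^ 2) - α' * w⁻¹ ^ 2 - 3 * ((w * x) ^ 2 + x * x' + (x' * w⁻¹) ^ 2)

/-- The coordinate `H` of a pair. -/
def Hf (α α' w x x' : F) : F :=
  9 * (w * x + x' * w⁻¹) * ((w * x) ^ 2 + x * x' + (x' * w⁻¹) ^ 2) +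
    3 * (α * w ^ 2) * (w * x + 2 * (x' * w⁻¹)) + 3 * (α' * w⁻¹ ^ 2) * (2 * (w * x) + x' * w⁻¹)

variable {α α' β β' w Z H x x' : F}

/-- The equation of the curve. -/
theorem fwd_eqn (hw : w ≠ 0) (h : x' ^ 3 + α' * x' + β' = w ^ 6 * (x ^ 3 + α * x + β)) :
    -(Hf α α' w x x') ^ 2 = Rhs α α' β β' w (Zf α α' w x x') := by
  have hβ : β' = w ^ 6 * (x ^ 3 + α * x + β) - x' ^ 3 - α' * x' := by linear_combination h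
  subst hβ
  unfold Hf Rhs Zf
  field_simp
  ring

theorem Pif_eq (hw : w ≠ 0) : Pif α α' w Z = (Z + α * w ^ 2 + α' * w⁻¹ ^ 2) * Qf α α' w Z := by
  unfold Pif Qf
  field_simp
  ring

theorem Rhs_eq (hw : w ≠ 0) : Rhs α α' β β' w Z = 4 * Pif α α' w Z +
    27 * (β * w ^ 3 - β' * w⁻¹ ^ 3) ^ 2 := by
  unfold Pif Rhs
  field_simp
  ring

theorem Qf_ne (hw : w ≠ 0) (h : Pif α α' w Z ≠ 0) : Qf α α' w Z ≠ 0 := by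
  intro h0
  rw [Pif_eq hw, h0, mul_zero] at h
  exact h rfl

/-- The pair is recovered from `(Z, H)`. -/
theorem px_fwd [CharZero F] (hw : w ≠ 0)
    (h : x' ^ 3 + α' * x' + β' = w ^ 6 * (x ^ 3 + α * x + β))
    (hQ : Qf α α' w (Zf α α' w x x') ≠ 0) :
    px α α' β β' w (Zf α α' w x x') (Hf α α' w x x') = x ∧
      px' α α' β β' w (Zf α α' w x x') (Hf α α' w x x') = x' := by
  have hβ : β' = w ^ 6 * (x ^ 3 + α * x + β) - x' ^ 3 - α' * x' := by linear_combination h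
  subst hβ
  have h6 : (6 : F) * Qf α α' w (Zf α α' w x x') ≠ 0 := mul_ne_zero (by norm_num) hQ
  constructor
  · unfold px
    rw [mul_inv_eq_iff_eq_mul₀ hw, div_eq_iff h6]
    unfold Hf Qf Zf
    field_simp
    ring
  · unfold px'
    rw [← eq_div_iff hw, div_eq_iff h6]
    unfold Hf Qf Zf
    field_simp
    ring

/-- The point `(Z, H)` of the curve gives a point of the plane cubic. -/
theorem cubic_aux [CharZero F] {a₁ a₂ b Z H Q : F} (hQ : Q ≠ 0)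
    (hQe : Q = Z ^ 2 - (a₁ + a₂) * Z + a₁ ^ 2 - a₁ * a₂ + a₂ ^ 2)
    (h : H ^ 2 + 27 * b ^ 2 + 4 * (Z + a₁ + a₂) * Q = 0) {ξ₁ ξ₂ : F}
    (h1 : ξ₁ = (9 * b * (Z - a₁) - H * (Z + a₁ - 2 * a₂)) / (6 * Q))
    (h2 : ξ₂ = -(9 * b * (Z - a₂) + H * (Z - 2 * a₁ + a₂)) / (6 * Q)) :
    Z = -a₁ - a₂ - 3 * (ξ₁ ^ 2 + ξ₁ * ξ₂ + ξ₂ ^ 2) ∧
      3 * (ξ₁ * (Z - a₂) + ξ₂ * (Z - a₁)) = -H ∧
      ξ₁ * (Z - 2 * a₁ + a₂) - ξ₂ * (Z + a₁ - 2 * a₂) = 3 * b ∧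
      ξ₂ ^ 3 + a₂ * ξ₂ = ξ₁ ^ 3 + a₁ * ξ₁ + b := by
  have h6 : (6 : F) * Q ≠ 0 := mul_ne_zero (by norm_num) hQ
  rw [eq_div_iff h6] at h1 h2
  -- the linear system
  have e1 : 3 * (ξ₁ * (Z - a₂) + ξ₂ * (Z - a₁)) = -H := by
    have : Q * (3 * (ξ₁ * (Z - a₂) + ξ₂ * (Z - a₁)) + H) = 0 := by
      rw [hQe] at h1 h2 ⊢
      linear_combination (1 / 2 : F) * (Z - a₂) * h1 + (1 / 2 : F) * (Z - a₁) * h2
    linear_combination (mul_eq_zero.mp this).resolve_left hQ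
  have e2 : ξ₁ * (Z - 2 * a₁ + a₂) - ξ₂ * (Z + a₁ - 2 * a₂) = 3 * b := by
    have : Q * (ξ₁ * (Z - 2 * a₁ + a₂) - ξ₂ * (Z + a₁ - 2 * a₂) - 3 * b) = 0 := by
      rw [hQe] at h1 h2 ⊢
      linear_combination (1 / 6 : F) * (Z - 2 * a₁ + a₂) * h1 -
        (1 / 6 : F) * (Z + a₁ - 2 * a₂) * h2
    linear_combination (mul_eq_zero.mp this).resolve_left hQ
  have e3 : Z + a₁ + a₂ + 3 * (ξ₁ ^ 2 + ξ₁ * ξ₂ + ξ₂ ^ 2) = 0 := by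
    have : Q * (Z + a₁ + a₂ + 3 * (ξ₁ ^ 2 + ξ₁ * ξ₂ + ξ₂ ^ 2)) = 0 := by
      have hH : H = -(3 * (ξ₁ * (Z - a₂) + ξ₂ * (Z - a₁))) := by rw [e1, neg_neg]
      have hb : b = (ξ₁ * (Z - 2 * a₁ + a₂) - ξ₂ * (Z + a₁ - 2 * a₂)) / 3 := by
        rw [e2]; field_simp
      rw [hQe] at h ⊢
      rw [hH, hb] at h
      linear_combination (1 / 4 : F) * h
    exact (mul_eq_zero.mp this).resolve_left hQ
  refine ⟨by linear_combination e3, e1, e2, ?_⟩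
  linear_combination (1 / 3 : F) * e2 - (1 / 3 : F) * (ξ₁ - ξ₂) * e3

/-- The point `(Z, H)` of the curve gives a pair. -/
theorem px_eqn [CharZero F] (hw : w ≠ 0) (hQ : Qf α α' w Z ≠ 0)
    (h : -H ^ 2 = Rhs α α' β β' w Z) :
    px' α α' β β' w Z H ^ 3 + α' * px' α α' β β' w Z H + β' =
      w ^ 6 * (px α α' β β' w Z H ^ 3 + α * px α α' β β' w Z H + β) := by
  rw [Rhs_eq hw, Pif_eq hw] at h
  obtain ⟨-, -, -, h1⟩ := cubic_aux (a₁ := α * w ^ 2) (a₂ := α' * w⁻¹ ^ 2)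
    (b := β * w ^ 3 - β' * w⁻¹ ^ 3) (Z := Z) (H := H) hQ
    (by unfold Qf; field_simp) (by linear_combination -h) rfl rfl
  unfold px' px
  set X := (9 * (β * w ^ 3 - β' * w⁻¹ ^ 3) * (Z - α * w ^ 2) -
    H * (Z + α * w ^ 2 - 2 * (α' * w⁻¹ ^ 2))) / (6 * Qf α α' w Z) with hX
  set X' := -(9 * (β * w ^ 3 - β' * w⁻¹ ^ 3) * (Z - α' * w⁻¹ ^ 2) +
    H * (Z - 2 * (α * w ^ 2) + α' * w⁻¹ ^ 2)) / (6 * Qf α α' w Z) with hX'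
  have e1 : (9 * (β * w ^ 3 - β' * w⁻¹ ^ 3) * (Z - α * w ^ 2) -
    H * (Z + α * w ^ 2 - 2 * α' * w⁻¹ ^ 2)) / (6 * Qf α α' w Z) = X := by rw [hX]; ring
  have e2 : -(9 * (β * w ^ 3 - β' * w⁻¹ ^ 3) * (Z - α' * w⁻¹ ^ 2) +
    H * (Z - 2 * α * w ^ 2 + α' * w⁻¹ ^ 2)) / (6 * Qf α α' w Z) = X' := by rw [hX']; ring
  rw [e1, e2]
  field_simp at h1 ⊢
  linear_combination h1

theorem px_neg : px α α' β β' (-w) Z H = px α α' β β' w Z (-H) := by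
  have e : Qf α α' (-w) Z = Qf α α' w Z := by
    unfold Qf; rw [inv_neg]; ring
  unfold px
  rw [e, inv_neg]
  ring

theorem px'_neg : px' α α' β β' (-w) Z H = px' α α' β β' w Z (-H) := by
  have e : Qf α α' (-w) Z = Qf α α' w Z := by
    unfold Qf; rw [inv_neg]; ring
  unfold px'
  rw [e, inv_neg]
  ring

theorem Qf_swap : Qf α' α w⁻¹ Z = Qf α α' w Z := by
  unfold Qf; rw [inv_inv]; ring

theorem Pif_swap : Pif α' α w⁻¹ Z = Pif α α' w Z := by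
  unfold Pif; rw [inv_inv]; ring

theorem px_swap : px α' α β' β w⁻¹ Z H = px' α α' β β' w Z H := by
  unfold px px'
  rw [Qf_swap, inv_inv]
  ring

theorem px'_swap : px' α' α β' β w⁻¹ Z H = px α α' β β' w Z H := by
  unfold px px'
  rw [Qf_swap, inv_inv]
  ring

/-! ### The third root of unity -/

variable {ω : F}

/-- The linear system for a pair of the form `(px, px')`. -/
theorem px_sys [CharZero F] (hw : w ≠ 0) (hQ : Qf α α' w Z ≠ 0)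
    (h : -H ^ 2 = Rhs α α' β β' w Z) (hω : ω ^ 2 + ω + 1 = 0) :
    6 * (Z + ω * (α * w ^ 2) + ω ^ 2 * (α' * w⁻¹ ^ 2)) *
        (px' α α' β β' w Z H * w⁻¹ - ω * (px α α' β β' w Z H * w)) =
      -((1 - ω) * H - 9 * ω ^ 2 * (β * w ^ 3 - β' * w⁻¹ ^ 3)) ∧
    6 * (Z + ω ^ 2 * (α * w ^ 2) + ω * (α' * w⁻¹ ^ 2)) *
        (px' α α' β β' w Z H * w⁻¹ - ω ^ 2 * (px α α' β β' w Z H * w)) =
      -((1 - ω ^ 2) * H - 9 * ω * (β * w ^ 3 - β' * w⁻¹ ^ 3)) := by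
  rw [Rhs_eq hw, Pif_eq hw] at h
  have e1 : (9 * (β * w ^ 3 - β' * w⁻¹ ^ 3) * (Z - α * w ^ 2) -
    H * (Z + α * w ^ 2 - 2 * (α' * w⁻¹ ^ 2))) / (6 * Qf α α' w Z) = px α α' β β' w Z H * w := by
    unfold px; field_simp
  have e2 : -(9 * (β * w ^ 3 - β' * w⁻¹ ^ 3) * (Z - α' * w⁻¹ ^ 2) +
    H * (Z - 2 * (α * w ^ 2) + α' * w⁻¹ ^ 2)) / (6 * Qf α α' w Z) =
      px' α α' β β' w Z H * w⁻¹ := by
    unfold px'; field_simp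
  obtain ⟨h0, h1, h2, h3⟩ := cubic_aux (a₁ := α * w ^ 2) (a₂ := α' * w⁻¹ ^ 2)
    (b := β * w ^ 3 - β' * w⁻¹ ^ 3) (Z := Z) (H := H) hQ
    (by unfold Qf; field_simp) (by linear_combination -h) e1.symm e2.symm
  set X := px α α' β β' w Z H * w
  set X' := px' α α' β β' w Z H * w⁻¹
  set a₁ := α * w ^ 2
  set a₂ := α' * w⁻¹ ^ 2
  set b := β * w ^ 3 - β' * w⁻¹ ^ 3
  constructor
  · linear_combination (1 - ω) * h1 + 3 * ω ^ 2 * h2 +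
      (3 * (Z * (X' - X) + a₁ * X') + (3 - 6 * ω) * a₂ * X) * hω
  · linear_combination (1 - ω ^ 2) * h1 + 3 * ω * h2 +
      (3 * (Z * (X' - X) + a₁ * X') + (3 - 6 * ω) * a₂ * X + (6 * ω - 6 * ω ^ 2) * a₁ * X) * hω

theorem Pif_omega (hw : w ≠ 0) (hω : ω ^ 2 + ω + 1 = 0) :
    Pif α α' w Z = (Z + α * w ^ 2 + α' * w⁻¹ ^ 2) *
      (Z + ω * (α * w ^ 2) + ω ^ 2 * (α' * w⁻¹ ^ 2)) *
      (Z + ω ^ 2 * (α * w ^ 2) + ω * (α' * w⁻¹ ^ 2)) := by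
  rw [Pif_eq hw, mul_assoc]
  congr 1
  have h3 : ω ^ 3 = 1 := by linear_combination (ω - 1) * hω
  have e : α * α' = (α * w ^ 2) * (α' * w⁻¹ ^ 2) := by field_simp
  unfold Qf
  rw [e]
  set a₁ := α * w ^ 2
  set a₂ := α' * w⁻¹ ^ 2
  linear_combination (-a₁ * Z - a₂ * Z - a₁ * a₂ * ω ^ 2 + a₁ * a₂ * ω - a₁ * a₂) * hω +
    (-a₁ ^ 2 - a₂ ^ 2) * h3

theorem Pif_mul (hω : ω ^ 2 + ω + 1 = 0) : Pif α α' (ω * w) Z = Pif α α' w Z := by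
  have h3 : ω ^ 3 = 1 := by linear_combination (ω - 1) * hω
  unfold Pif
  have h6 : ω ^ 6 = 1 := by rw [show 6 = 3 * 2 by norm_num, pow_mul, h3, one_pow]
  rw [mul_inv, mul_pow, mul_pow, inv_pow ω, h6, inv_one, one_mul, one_mul]

theorem Rhs_mul (hω : ω ^ 2 + ω + 1 = 0) : Rhs α α' β β' (ω * w) Z = Rhs α α' β β' w Z := by
  have h3 : ω ^ 3 = 1 := by linear_combination (ω - 1) * hω
  unfold Rhs
  have h6 : ω ^ 6 = 1 := by rw [show 6 = 3 * 2 by norm_num, pow_mul, h3, one_pow]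
  rw [mul_inv, mul_pow, mul_pow, inv_pow ω, h6, inv_one, one_mul, one_mul]

theorem third_aux [CharZero F] (hω : ω ^ 2 + ω + 1 = 0) {Z a₁ a₂ X X' Y Y' M₁ M₂ : F}
    (h0 : Z + a₁ + a₂ ≠ 0) (h1 : Z + ω * a₁ + ω ^ 2 * a₂ ≠ 0) (h2 : Z + ω ^ 2 * a₁ + ω * a₂ ≠ 0)
    (hM : M₁ * M₂ = -12 * ((Z + a₁ + a₂) * (Z + ω * a₁ + ω ^ 2 * a₂) * (Z + ω ^ 2 * a₁ + ω * a₂)))
    (e1 : 6 * (Z + ω * a₁ + ω ^ 2 * a₂) * (X' - ω * X) = -M₁)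
    (e2 : 6 * (Z + ω ^ 2 * a₁ + ω * a₂) * (X' - ω ^ 2 * X) = -M₂)
    (e3 : 6 * (Z + a₁ + a₂) * (Y' - ω * Y) = -M₁)
    (e4 : 6 * (Z + ω * a₁ + ω ^ 2 * a₂) * (Y' - ω ^ 2 * Y) = -M₂) :
    ∃ s : F, (ω ^ 2 - 1) * s = ω * (Y' - ω * Y) - (X' - ω ^ 2 * X) ∧
      X' - ω ^ 2 * X ≠ 0 ∧ Y' - ω * Y ≠ 0 ∧
      3 * ω * (X' - ω ^ 2 * X) * (X + s) =
        -(3 * ω ^ 2 * (X' - ω ^ 2 * X) ^ 2 + ω ^ 2 * a₂ - a₁) ∧
      3 * (ω * (Y' - ω * Y)) * (ω ^ 2 * Y + s) =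
        -(3 * (ω * (Y' - ω * Y)) ^ 2 + a₂ - a₁) := by
  have h3 : ω ^ 3 = 1 := by linear_combination (ω - 1) * hω
  obtain ⟨n₁, hn₁⟩ : ∃ n, n = X' - ω * X := ⟨_, rfl⟩
  obtain ⟨n₂, hn₂⟩ : ∃ n, n = X' - ω ^ 2 * X := ⟨_, rfl⟩
  obtain ⟨m₁, hm₁⟩ : ∃ n, n = Y' - ω * Y := ⟨_, rfl⟩
  obtain ⟨m₂, hm₂⟩ : ∃ n, n = Y' - ω ^ 2 * Y := ⟨_, rfl⟩
  obtain ⟨D₀, hD₀⟩ : ∃ n, n = Z + a₁ + a₂ := ⟨_, rfl⟩
  obtain ⟨D₁, hD₁⟩ : ∃ n, n = Z + ω * a₁ + ω ^ 2 * a₂ := ⟨_, rfl⟩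
  obtain ⟨D₂, hD₂⟩ : ∃ n, n = Z + ω ^ 2 * a₁ + ω * a₂ := ⟨_, rfl⟩
  have hX : X = (ω - ω ^ 2) / 3 * (n₁ - n₂) := by
    rw [hn₁, hn₂]
    field_simp
    linear_combination (X * (ω ^ 2 - ω - 2 * ω + 3)) * hω + 0 * h3
  have hY : Y = (ω - ω ^ 2) / 3 * (m₁ - m₂) := by
    rw [hm₁, hm₂]
    field_simp
    linear_combination (Y * (ω ^ 2 - ω - 2 * ω + 3)) * hω + 0 * h3
  rw [← hD₀] at h0 hM e3
  rw [← hD₁] at h1 hM e1 e4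
  rw [← hD₂] at h2 hM e2
  rw [← hn₁] at e1
  rw [← hn₂] at e2 ⊢
  rw [← hm₁] at e3 ⊢
  rw [← hm₂] at e4
  have p12 : n₁ * n₂ = -(D₀ / 3) := by
    have : D₁ * D₂ * (n₁ * n₂ + D₀ / 3) = 0 := by
      linear_combination (1 / 36 : F) * (6 * D₂ * n₂) * e1 - (1 / 36 : F) * M₁ * e2 +
        (1 / 36 : F) * hM
    linear_combination (mul_eq_zero.mp this).resolve_left (mul_ne_zero h1 h2)
  have pm2 : m₁ * n₂ = -(D₁ / 3) := by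
    have : D₀ * D₂ * (m₁ * n₂ + D₁ / 3) = 0 := by
      linear_combination (1 / 36 : F) * (6 * D₂ * n₂) * e3 - (1 / 36 : F) * M₁ * e2 +
        (1 / 36 : F) * hM
    linear_combination (mul_eq_zero.mp this).resolve_left (mul_ne_zero h0 h2)
  have pmm : m₁ * m₂ = -(D₂ / 3) := by
    have : D₀ * D₁ * (m₁ * m₂ + D₂ / 3) = 0 := by
      linear_combination (1 / 36 : F) * (6 * D₁ * m₂) * e3 - (1 / 36 : F) * M₁ * e4 +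
        (1 / 36 : F) * hM
    linear_combination (mul_eq_zero.mp this).resolve_left (mul_ne_zero h0 h1)
  have hn0 : n₂ ≠ 0 := by
    intro h
    rw [h, mul_zero] at p12
    apply h0
    linear_combination 3 * p12
  have hm0 : m₁ ≠ 0 := by
    intro h
    rw [h, zero_mul] at pm2
    apply h1
    linear_combination 3 * pm2
  rw [hD₀] at p12
  rw [hD₁] at pm2
  rw [hD₂] at pmm
  refine ⟨(ω - 1) / 3 * (ω * m₁ - n₂), ?_, hn0, hm0, ?_, ?_⟩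
  · linear_combination (ω * m₁ - n₂) / 3 * (h3 - hω)
  · rw [hX]
    linear_combination (ω ^ 2 - ω ^ 3) * p12 + (ω ^ 3 - ω ^ 2) * pm2 +
      (ω * n₂ ^ 2 + a₁ * (-ω ^ 2 + 3 * ω - 3) / 3 + a₂ * (-ω ^ 3 + 2 * ω ^ 2) / 3) * hω
  · rw [hY]
    linear_combination (ω ^ 5 - ω ^ 4) * pmm + (ω - ω ^ 2) * pm2 +
      (m₁ ^ 2 * (-ω ^ 3 + 2 * ω ^ 2) +
        a₁ * (-ω ^ 5 + 2 * ω ^ 4 - ω ^ 3 - ω ^ 2 + 3 * ω - 3) / 3 +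
        a₂ * (-ω ^ 4 + 2 * ω ^ 3 - 3 * ω + 3) / 3 + Z * (-ω ^ 3 + 2 * ω ^ 2 - ω) / 3) * hω

/-- The lines through the points `(Z, H)` in the frames `w` and `ω w` with slopes `ω ^ 2 w ^ 2` and
`w ^ 2` have the same third point. -/
theorem third [CharZero F] (hω : ω ^ 2 + ω + 1 = 0) (hw : w ≠ 0) (hP : Pif α α' w Z ≠ 0)
    (h : -H ^ 2 = Rhs α α' β β' w Z) :
    ∃ s ν ν' : F, px' α α' β β' w Z H = ω ^ 2 * w ^ 2 * px α α' β β' w Z H + ν ∧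
      px' α α' β β' (ω * w) Z H = w ^ 2 * px α α' β β' (ω * w) Z H + ν' ∧
      ω ^ 2 * w ^ 2 * s + ν = w ^ 2 * s + ν' ∧ ν ≠ 0 ∧ ν' ≠ 0 ∧
      3 * (ω ^ 2 * w ^ 2) ^ 2 * ν * (px α α' β β' w Z H + s) =
        -(3 * (ω ^ 2 * w ^ 2) * ν ^ 2 + α' * (ω ^ 2 * w ^ 2) - α * w ^ 6) ∧
      3 * (w ^ 2) ^ 2 * ν' * (px α α' β β' (ω * w) Z H + s) =
        -(3 * w ^ 2 * ν' ^ 2 + α' * w ^ 2 - α * w ^ 6) := by
  have h3 : ω ^ 3 = 1 := by linear_combination (ω - 1) * hω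
  have hω0 : ω ≠ 0 := by
    rintro rfl
    norm_num at h3
  have hw' : ω * w ≠ 0 := mul_ne_zero hω0 hw
  have hP' : Pif α α' (ω * w) Z ≠ 0 := by rw [Pif_mul hω]; exact hP
  have h' : -H ^ 2 = Rhs α α' β β' (ω * w) Z := by rw [Rhs_mul hω]; exact h
  obtain ⟨e1, e2⟩ := px_sys hw (Qf_ne hw hP) h hω
  obtain ⟨e3, e4⟩ := px_sys hw' (Qf_ne hw' hP') h' hω
  have hωi : ω⁻¹ = ω ^ 2 := (eq_inv_of_mul_eq_one_left (by linear_combination h3)).symm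
  obtain ⟨x, hx⟩ : ∃ x, x = px α α' β β' w Z H := ⟨_, rfl⟩
  obtain ⟨x', hx'⟩ : ∃ x, x = px' α α' β β' w Z H := ⟨_, rfl⟩
  obtain ⟨t, ht⟩ : ∃ x, x = px α α' β β' (ω * w) Z H := ⟨_, rfl⟩
  obtain ⟨t', ht'⟩ : ∃ x, x = px' α α' β β' (ω * w) Z H := ⟨_, rfl⟩
  rw [← hx, ← hx'] at e1 e2 ⊢
  rw [← ht, ← ht'] at e3 e4 ⊢
  rw [mul_inv, hωi] at e3 e4
  have hD := Pif_omega (α := α) (α' := α') (Z := Z) hw hω
  rw [hD] at hP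
  have hM := Rhs_eq (α := α) (α' := α') (β := β) (β' := β') (Z := Z) hw
  rw [hD, ← h] at hM
  obtain ⟨v, hv⟩ : ∃ v, v = w⁻¹ := ⟨_, rfl⟩
  have hwv : w * v = 1 := by rw [hv, mul_inv_cancel₀ hw]
  rw [← hv] at e1 e2 e3 e4 hM hP
  obtain ⟨b, hb⟩ : ∃ b, b = β * w ^ 3 - β' * v ^ 3 := ⟨_, rfl⟩
  obtain ⟨a₁, ha₁⟩ : ∃ a, a = α * w ^ 2 := ⟨_, rfl⟩
  obtain ⟨a₂, ha₂⟩ : ∃ a, a = α' * v ^ 2 := ⟨_, rfl⟩
  rw [← hb] at e1 e2 hM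
  rw [← ha₁, ← ha₂] at e1 e2 hM hP
  have e3' : 6 * (Z + a₁ + a₂) * (t' * (ω ^ 2 * v) - ω * (t * (ω * w))) =
      -((1 - ω) * H - 9 * ω ^ 2 * b) := by
    rw [ha₁, ha₂, hb]
    linear_combination e3 + (-6 * (t' * (ω ^ 2 * v) - ω * (t * (ω * w))) * (α * w ^ 2) -
      6 * (t' * (ω ^ 2 * v) - ω * (t * (ω * w))) * (α' * v ^ 2) * (ω ^ 3 + 1) +
      9 * ω ^ 2 * (β * w ^ 3 - β' * v ^ 3 * (ω ^ 3 + 1))) * h3
  have e4' : 6 * (Z + ω * a₁ + ω ^ 2 * a₂) * (t' * (ω ^ 2 * v) - ω ^ 2 * (t * (ω * w))) =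
      -((1 - ω ^ 2) * H - 9 * ω * b) := by
    rw [ha₁, ha₂, hb]
    linear_combination e4 + (-6 * (t' * (ω ^ 2 * v) - ω ^ 2 * (t * (ω * w))) * (α * w ^ 2) * ω -
      6 * (t' * (ω ^ 2 * v) - ω ^ 2 * (t * (ω * w))) * (α' * v ^ 2) * ω ^ 2 +
      9 * ω * (β * w ^ 3 - β' * v ^ 3 * (ω ^ 3 + 1))) * h3
  obtain ⟨s, h5, h6, h7, h8, h9⟩ := third_aux hω
    (M₁ := (1 - ω) * H - 9 * ω ^ 2 * b) (M₂ := (1 - ω ^ 2) * H - 9 * ω * b)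
    (left_ne_zero_of_mul (left_ne_zero_of_mul hP)) (right_ne_zero_of_mul (left_ne_zero_of_mul hP))
    (right_ne_zero_of_mul hP)
    (by linear_combination (-3) * hM + ((ω - 2) * H ^ 2 + 9 * ω * (ω - 1) * b * H +
      81 * (ω - 1) * b ^ 2) * hω) e1 e2 e3' e4'
  refine ⟨s * v, w * (x' * v - ω ^ 2 * (x * w)), w * (ω * (t' * (ω ^ 2 * v) - ω * (t * (ω * w)))),
    ?_, ?_, ?_, mul_ne_zero hw h6, mul_ne_zero hw (mul_ne_zero hω0 h7), ?_, ?_⟩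
  · linear_combination -x' * hwv
  · linear_combination -t' * hwv - (t' * w * v - w ^ 2 * t) * h3
  · linear_combination w * h5 + (w * (ω ^ 2 - 1) * s) * hwv
  · rw [ha₁, ha₂] at h8
    linear_combination w ^ 4 * h8 +
      3 * ω * (x' * v - ω ^ 2 * (x * w)) * w ^ 4 * (w * x + w * v * s) * h3 +
      (3 * ω * (x' * v - ω ^ 2 * (x * w)) * w ^ 4 * s - α' * ω ^ 2 * w ^ 2 * (w * v + 1)) * hwv
  · rw [ha₁, ha₂] at h9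
    linear_combination w ^ 4 * h9 -
      3 * ω * (t' * (ω ^ 2 * v) - ω * (t * (ω * w))) * w ^ 4 * (t * w) * h3 +
      (3 * ω * (t' * (ω ^ 2 * v) - ω * (t * (ω * w))) * w ^ 4 * s - α' * w ^ 2 * (w * v + 1)) * hwv

end Pool.Agent.Helper83.KV
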